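import Pool.Agent.Helper29.VS.Tr
import Pool.Agent.Helper29.VP.Ent

/-! Independent orbits give positive entropy. -/

set_option autoImplicit false
set_option linter.style.haveILetI false

open Filter Topology

namespace Pool.Agent.Helper29.VS

open Pool.Agent.Helper29.VP (ZeroRank Kd ind dv ind_dv dv_norm norm_un_le iter_u)

variable {A G : Type} [CStarAlgebra A] [Group G]

/-- the orbit of `g` is independent on the subgroup `N` -/
def Indep (σ : MulAut G) (N : Subgroup G) (g : G) : Prop :=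
  ∃ (hg : ∀ j : ℕ, (σ^[j]) g ∈ N) (q : ℕ), 0 < q ∧ ∀ (m : ℕ) (w : ℕ → ℂ), (∀ j, ‖w j‖ = 1) →
    ∃ ω : N → ℂ, (∀ x y, ω (x * y) = ω x * ω y) ∧ (∀ x, ‖ω x‖ = 1) ∧
      (m : ℝ) / 2 ≤ ‖∑ j : Fin m, w j * ω ⟨(σ^[q * j]) g, hg _⟩‖

/-- the lower bound for sums of the group elements -/
theorem norm_low {u : G → A}
    (hun : ∀ (K : Type) [NormedAddCommGroup K] [InnerProductSpace ℂ K] [CompleteSpace K]
      (v : G →* (K ≃ₗᵢ[ℂ] K)), ∃ ρ : A →⋆ₐ[ℂ] (K →L[ℂ] K), ∀ g ξ, ρ (u g) ξ = v g ξ)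
    {N : Subgroup G} {ω : N → ℂ} (hωm : ∀ x y, ω (x * y) = ω x * ω y) (hωn : ∀ x, ‖ω x‖ = 1)
    {m : ℕ} (g : Fin m → N) (w : Fin m → ℂ) :
    ‖∑ j, w j * ω (g j)‖ ≤ ‖∑ j, w j • u (g j : G)‖ := by
  obtain ⟨ρ, hρ⟩ := hun (Kd N) (ind hωm hωn)
  set Y : A := ∑ j, w j • u (g j : G) with hY
  set Z : ℂ := ∑ j, w j * ω (g j) with hZ
  have h1 : ρ Y (dv N) = Z • dv N := by
    rw [hY, map_sum, hZ, Finset.sum_smul]
    rw [_root_.sum_apply]
    refine Finset.sum_congr rfl fun j _ => ?_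
    rw [map_smul]
    show w j • (ρ (u (g j : G)) (dv N)) = _
    rw [hρ, ind_dv, smul_smul]
  calc ‖Z‖ = ‖ρ Y (dv N)‖ := by rw [h1, norm_smul, dv_norm, mul_one]
    _ ≤ ‖ρ Y‖ * ‖dv N‖ := (ρ Y).le_opNorm _
    _ ≤ ‖Y‖ := by
        rw [dv_norm, mul_one]
        exact NonUnitalStarAlgHom.norm_apply_le ρ Y

/-- **Zero entropy excludes independent orbits.** -/
theorem no_indep {u : G → A} (hu : ∀ g, u g ∈ unitary A)
    (hun : ∀ (K : Type) [NormedAddCommGroup K] [InnerProductSpace ℂ K] [CompleteSpace K]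
      (v : G →* (K ≃ₗᵢ[ℂ] K)), ∃ ρ : A →⋆ₐ[ℂ] (K →L[ℂ] K), ∀ g ξ, ρ (u g) ξ = v g ξ)
    {σ : MulAut G} {θ : G → ℂ} {α : A →⋆ₐ[ℂ] A} (hθ : ∀ g, ‖θ g‖ = 1)
    (hα : ∀ g, α (u g) = θ g • u (σ g)) (hz : ZeroRank α) (N : Subgroup G) (g₀ : G) :
    ¬ Indep σ N g₀ := by
  rintro ⟨hmem, q, hq0, hind⟩
  choose cf hcf hcα using fun i => iter_u (u := u) (σ := σ) hθ hα (g₀ : G) i
  obtain ⟨H, _, _, _, π, hπ, hrank⟩ := hz
  obtain ⟨n₀, hn₀⟩ := eventually_atTop.1 (hrank {u g₀} (1 / 8) (Real.log 2 / (512 * q))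
    (by norm_num) (by positivity))
  set p : ℕ := 2 ^ (n₀ + 1) with hp
  have hp2 : 2 ≤ p := by
    rw [hp, pow_succ]
    have := Nat.one_le_two_pow (n := n₀)
    omega
  have hpn : n₀ ≤ p := by
    rw [hp]
    exact (Nat.lt_two_pow_self).le.trans (Nat.pow_le_pow_right (by norm_num) (Nat.le_succ _))
  set m : ℕ := 512 * p with hm
  obtain ⟨k, hk, φ, ψ, hφ, hψ, happ⟩ := hn₀ (q * m) (by
    calc n₀ ≤ p := hpn
      _ ≤ 512 * p := by omega
      _ = 1 * m := by rw [one_mul]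
      _ ≤ q * m := Nat.mul_le_mul_right _ hq0)
  have hx : ∀ j : Fin m, ∀ a ∈ ({u g₀} : Finset A), ‖ψ (φ ((α^[q * j]) a)) -
      π ((α^[q * j]) a)‖ < 1 / 8 := by
    intro j
    refine happ (q * j) ?_
    exact Nat.mul_lt_mul_of_pos_left j.2 hq0
  set x : ℕ → A := fun j => (α^[q * j]) (u g₀) with hxdef
  have hxn : ∀ j, ‖x j‖ ≤ 1 := by
    intro j
    show ‖(α^[q * j]) (u g₀)‖ ≤ 1
    rw [hcα, norm_smul, hcf, one_mul]
    exact norm_un_le (hu _)
  have h4p : (4 : ℝ) ^ p ≤ 2 * k := by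
    refine dim_large (r := n₀) hp hm (a := fun j : Fin m => φ (x j))
      (fun j => (hφ _).trans (hxn j)) fun ε => ?_
    set Y : A := ∑ j : Fin m, (sg (ε j) : ℂ) • x j with hY
    have e1 : XX (fun j : Fin m => φ (x j)) ε = φ Y := by
      rw [XX, hY, map_sum]
      exact Finset.sum_congr rfl fun j _ => (map_smul _ _ _).symm
    -- the lower bound for `Y`
    have h1 : (m : ℝ) / 2 ≤ ‖Y‖ := by
      set w : ℕ → ℂ := fun j => (if h : j < m then (sg (ε ⟨j, h⟩) : ℂ) else 1) * cf (q * j)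
        with hwdef
      have hw : ∀ j, ‖w j‖ = 1 := by
        intro j
        show ‖(if h : j < m then (sg (ε ⟨j, h⟩) : ℂ) else 1) * cf (q * j)‖ = 1
        rw [norm_mul, hcf, mul_one]
        split_ifs with h
        · rw [Complex.norm_real, Real.norm_eq_abs, sg_abs]
        · exact norm_one
      obtain ⟨ω, hωm, hωn, h2⟩ := hind m w hw
      refine h2.trans ((norm_low hun hωm hωn (fun j : Fin m => ⟨(σ^[q * j]) g₀, hmem _⟩)
        (fun j => w j)).trans (le_of_eq ?_))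
      congr 1
      rw [hY]
      refine Finset.sum_congr rfl fun j _ => ?_
      show ((if h : (j : ℕ) < m then (sg (ε ⟨j, h⟩) : ℂ) else 1) * cf (q * j)) •
        u ((σ^[q * j]) (g₀ : G)) = (sg (ε j) : ℂ) • (α^[q * j]) (u g₀)
      rw [dif_pos j.2, hcα, smul_smul]
    have h2 : ‖ψ (φ Y) - π Y‖ ≤ 1 / 8 * (m : ℝ) := by
      have e2 : ψ (φ Y) - π Y = ∑ j : Fin m, (sg (ε j) : ℂ) • (ψ (φ (x j)) - π (x j)) := by
        rw [hY, map_sum, map_sum, map_sum, ← Finset.sum_sub_distrib]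
        refine Finset.sum_congr rfl fun j _ => ?_
        rw [map_smul, map_smul, map_smul, smul_sub]
      rw [e2]
      refine (norm_sum_le _ _).trans ?_
      calc ∑ j : Fin m, ‖(sg (ε j) : ℂ) • (ψ (φ (x j)) - π (x j))‖ ≤ ∑ _j : Fin m, (1 / 8 : ℝ) := by
            refine Finset.sum_le_sum fun j _ => ?_
            rw [norm_smul, Complex.norm_real, Real.norm_eq_abs, sg_abs, one_mul]
            exact (hx j _ (Finset.mem_singleton_self _)).le
        _ = 1 / 8 * (m : ℝ) := by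
            rw [Finset.sum_const, Finset.card_univ, Fintype.card_fin, nsmul_eq_mul]
            ring
    have h3 : ‖π Y‖ = ‖Y‖ := NonUnitalStarAlgHom.norm_map π hπ Y
    have h4 : ‖π Y‖ ≤ ‖ψ (φ Y)‖ + ‖ψ (φ Y) - π Y‖ := by
      have e : π Y = ψ (φ Y) - (ψ (φ Y) - π Y) := by abel
      conv_lhs => rw [e]
      exact norm_sub_le _ _
    rw [e1]
    have h5 := hψ (φ Y)
    have h6 : (0 : ℝ) ≤ m := by positivity
    linarith
  -- the contradiction
  have hq' : (0 : ℝ) < q := by exact_mod_cast hq0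
  have hk2 : (k : ℝ) ≤ 2 ^ p := by
    refine hk.trans (le_of_eq ?_)
    have e : Real.log 2 / (512 * q) * ((q * m : ℕ) : ℝ) = Real.log 2 * p := by
      rw [hm]
      push_cast
      field_simp
    rw [e, mul_comm, Real.exp_nat_mul, Real.exp_log (by norm_num)]
  have h1 : (4 : ℝ) ^ p ≤ 2 ^ (p + 1) := by
    rw [pow_succ]
    linarith
  have h2 : (2 : ℝ) ^ (2 * p) ≤ 2 ^ (p + 1) := by
    rw [pow_mul]
    norm_num
    exact h1
  have h3 := (pow_le_pow_iff_right₀ (by norm_num : (1 : ℝ) < 2)).1 h2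
  omega

end Pool.Agent.Helper29.VS
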