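import Pool.Agent.Helper29.VS.Fin

/-! The versions for solvable subgroups. -/

set_option autoImplicit false
set_option linter.style.haveILetI false

open Subgroup Polynomial

namespace Pool.Agent.Helper29.VS

open Pool.Agent.Helper29.NU (Dg rsA rsA_pow Dg_rsA RR RR_map RR_normal mem_iff_of_map)

variable {G : Type} [Group G]

/-- quasi-unipotence on the abelianization of `N` -/
def QUO (τ : MulAut G) (N : Subgroup G) : Prop :=
  ∀ x ∈ N, ∃ m : ℕ, 0 < m ∧ ∃ k : ℕ, (Dg (τ ^ m))^[k] x ∈ ⁅N, N⁆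

theorem quo_of_no_indep {σ : MulAut G} (N : Subgroup G) (hN : ∀ x, x ∈ N ↔ σ x ∈ N)
    (h : ∀ g : G, ¬ Indep σ N g) : QUO σ N := by
  intro x hx
  set τ : MulAut N := rsA σ N hN with hτdef
  let M := Additive (Abelianization N)
  let L : MulAut N → (M →ₗ[ℤ] M) := fun τ =>
    (MonoidHom.toAdditive (Abelianization.map τ.toMonoidHom)).toIntLinearMap
  let o : N → M := fun x => Additive.ofMul (Abelianization.of x)
  have ho : ∀ y : M, ∃ x, o x = y := by
    intro y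
    obtain ⟨x, hx⟩ := QuotientGroup.mk_surjective (Additive.toMul y)
    exact ⟨x, congrArg Additive.ofMul hx⟩
  have hL : ∀ (τ : MulAut N) (x : N), L τ (o x) = o (τ x) := fun τ x => rfl
  have hinj : Function.Injective (L τ) := by
    intro y z hyz
    obtain ⟨a, rfl⟩ := ho y
    obtain ⟨b, rfl⟩ := ho z
    have h1 := congrArg (L τ⁻¹) hyz
    rw [hL, hL, hL, hL, MulAut.inv_apply_self, MulAut.inv_apply_self] at h1
    exact h1
  have hLpow : ∀ (n : ℕ) (x : N), ((L τ : Module.End ℤ M) ^ n) (o x) = o ((τ ^ n) x) := by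
    intro n
    induction n with
    | zero => intro x; rfl
    | succ n ih =>
      intro x
      rw [pow_succ, Module.End.mul_apply, hL, ih, pow_succ, MulAut.mul_apply]
  have hpow : ∀ (n : ℕ) (x : G), (σ ^ n) x = (σ^[n]) x := by
    intro n
    induction n with
    | zero => intro x; rfl
    | succ n ih => intro x; rw [pow_succ, MulAut.mul_apply, ih, Function.iterate_succ_apply]
  have hit : ∀ (x : N) (j : ℕ), (σ^[j]) (x : G) ∈ N := by
    intro x j
    rw [← hpow, ← rsA_pow σ N hN]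
    exact Subtype.prop _
  have hI : ∀ y : M, ¬ IndA (L τ) y := by
    intro y hy
    obtain ⟨x', rfl⟩ := ho y
    obtain ⟨q, hq, hind⟩ := hy
    refine h x' ⟨hit x', q, hq, fun m w hw => ?_⟩
    obtain ⟨ω, h1, h2, h3⟩ := hind m w hw
    refine ⟨fun n => ω (o n), fun a b => ?_, fun a => h2 _, ?_⟩
    · show ω (o (a * b)) = ω (o a) * ω (o b)
      rw [← h1]
      rfl
    · refine h3.trans (le_of_eq ?_)
      congr 1
      refine Finset.sum_congr rfl fun j _ => ?_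
      rw [hLpow]
      congr 3
      exact Subtype.ext (by rw [rsA_pow, hpow])
  obtain ⟨m, hm, k, hk⟩ := dich hinj hI (o ⟨x, hx⟩)
  refine ⟨m, hm, k, ?_⟩
  have hk' : (((L τ : Module.End ℤ M) ^ m - 1) ^ k) (o ⟨x, hx⟩) = 0 := by
    rw [← hk, map_pow, map_sub, map_pow, aeval_X, map_one]
  have hD : ∀ (k : ℕ) (x : N), o ((Dg (τ ^ m))^[k] x) =
      (((L τ : Module.End ℤ M) ^ m - 1) ^ k) (o x) := by
    intro k
    induction k with
    | zero => intro x; rfl
    | succ k ih =>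
      intro x
      rw [Function.iterate_succ_apply, ih, pow_succ, Module.End.mul_apply]
      congr 1
      show o (x⁻¹ * (τ ^ m) x) = ((L τ : Module.End ℤ M) ^ m) (o x) - o x
      rw [hLpow]
      have : o (x⁻¹ * (τ ^ m) x) = - o x + o ((τ ^ m) x) := rfl
      rw [this, neg_add_eq_sub]
  have h3 := hD k ⟨x, hx⟩
  rw [hk'] at h3
  have h4 : Abelianization.of ((Dg (τ ^ m))^[k] ⟨x, hx⟩) = 1 := congrArg Additive.toMul h3
  rw [← MonoidHom.mem_ker, Abelianization.ker_of] at h4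
  have h5 := mem_map_of_mem N.subtype h4
  have h6 : (commutator N).map N.subtype = ⁅N, N⁆ := by
    rw [_root_.commutator_def, Subgroup.map_commutator, ← MonoidHom.range_eq_map,
      Subgroup.range_subtype]
  rw [h6] at h5
  have h7 : N.subtype ((Dg (τ ^ m))^[k] ⟨x, hx⟩) = (Dg (σ ^ m))^[k] x := Dg_rsA σ N hN m k ⟨x, hx⟩
  rwa [h7] at h5

/-- quasi-unipotence on the abelianizations of the solvable invariant subgroups -/
def QUS (τ : MulAut G) : Prop :=
  ∀ N : Subgroup G, Group.IsSolvable N → (∀ x, x ∈ N ↔ τ x ∈ N) → QUO τ N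

theorem RR_le (R : Subgroup G) (i : ℕ) : RR R i ≤ R := by
  induction i with
  | zero => exact le_rfl
  | succ i ih =>
    show ⁅RR R i, RR R i⁆ ≤ R
    exact (Subgroup.commutator_mono ih ih).trans (by
      rw [Subgroup.commutator_le]
      intro a ha b hb
      rw [commutatorElement_def]
      exact mul_mem (mul_mem (mul_mem ha hb) (inv_mem ha)) (inv_mem hb))

theorem tame_of_QUS {S : Subgroup G} (hS : S.FiniteIndex) (hSs : Group.IsSolvable S) {τ : MulAut G}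
    (hτ : QUS τ) (g : G) :
    ∃ m : ℕ, 0 < m ∧ (∃ k : ℕ, (Dg (τ ^ m))^[k] g = 1) ∧
      ∃ V : Subgroup G, Group.IsNilpotent V ∧ ∀ n : ℕ, ((τ ^ m)^[n]) (Dg (τ ^ m) g) ∈ V := by
  obtain ⟨R, hRn, hRs, hRf, hR⟩ := exists_rad' hS hSs
  obtain ⟨m₀, hm₀, hg⟩ := exists_m0 τ R (hR τ) g
  exact tame τ R (hR τ) hRs (fun i => hτ (RR R i)
    (Group.isSolvable_of_isSolvable_injective (Subgroup.inclusion_injective (RR_le R i)))
    (mem_iff_of_map (RR_map (hR τ) i))) g hm₀ hg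

theorem QUS.restrict {σ : MulAut G} (h : QUS σ) (N : Subgroup G) (hN : ∀ x, x ∈ N ↔ σ x ∈ N) :
    QUS (rsA σ N hN) := by
  intro K hKs hK x hx
  have hmem : ∀ y : G, y ∈ K.map N.subtype ↔ ∃ hy : y ∈ N, (⟨y, hy⟩ : N) ∈ K := by
    intro y
    constructor
    · rintro ⟨z, hz, rfl⟩
      exact ⟨z.2, hz⟩
    · rintro ⟨hy, hz⟩
      exact ⟨⟨y, hy⟩, hz, rfl⟩
  obtain ⟨m, hm, k, hk⟩ := h (K.map N.subtype)
    (Group.isSolvable_of_surjective (N.subtype.subgroupMap_surjective K)) (by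
    intro y
    rw [hmem, hmem]
    constructor
    · rintro ⟨hy, hz⟩
      exact ⟨(hN y).1 hy, (hK ⟨y, hy⟩).1 hz⟩
    · rintro ⟨hy, hz⟩
      exact ⟨(hN y).2 hy, (hK ⟨y, (hN y).2 hy⟩).2 hz⟩) x ⟨x, hx, rfl⟩
  refine ⟨m, hm, k, ?_⟩
  rw [← Dg_rsA σ N hN m k x, ← Subgroup.map_commutator] at hk
  obtain ⟨z, hz, he⟩ := hk
  have : z = (Dg (rsA σ N hN ^ m))^[k] x := N.subtype_injective he
  rwa [← this]

/-- **Tame orbits, local version.** -/
theorem tame_local' {σ : MulAut G} (hσ : QUS σ) (g : G) (N : Subgroup G) (hgN : g ∈ N)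
    (hN : ∀ x, x ∈ N ↔ σ x ∈ N) {S : Subgroup N} (hS : S.FiniteIndex) (hSs : Group.IsSolvable S) :
    ∃ m : ℕ, 0 < m ∧ (∃ k : ℕ, (Dg (σ ^ m))^[k] g = 1) ∧
      ∃ V : Subgroup G, Group.IsNilpotent V ∧ ∀ n : ℕ, ((σ ^ m)^[n]) (Dg (σ ^ m) g) ∈ V := by
  obtain ⟨m, hm, ⟨k, hk⟩, V, hVn, hV⟩ := tame_of_QUS hS hSs (hσ.restrict N hN) ⟨g, hgN⟩
  refine ⟨m, hm, ⟨k, ?_⟩, V.map N.subtype, ?_, fun n => ?_⟩
  · have := Dg_rsA σ N hN m k ⟨g, hgN⟩
    rw [hk] at this
    exact this.symm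
  · obtain ⟨c, hc⟩ := (Subgroup.isNilpotent_iff_lowerCentralSeries V).1 hVn
    refine (Subgroup.isNilpotent_iff_lowerCentralSeries _).2 ⟨c, ?_⟩
    rw [← Subgroup.map_lowerCentralSeries, hc, Subgroup.map_bot]
  · refine ⟨_, hV n, ?_⟩
    have h1 : ∀ (n : ℕ) (x : N), N.subtype (((rsA σ N hN ^ m)^[n]) x) =
        ((σ ^ m)^[n]) (x : G) := by
      intro n
      induction n with
      | zero => intro x; rfl
      | succ n ih =>
        intro x
        rw [Function.iterate_succ_apply, ih, rsA_pow, Function.iterate_succ_apply]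
    rw [h1]
    congr 1
    exact Dg_rsA σ N hN m 1 ⟨g, hgN⟩

end Pool.Agent.Helper29.VS
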