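import Pool.Agent.Helper29.VS.Chr

/-! Characters: polynomials with large leading coefficient. -/

set_option autoImplicit false
set_option linter.style.haveILetI false

open Polynomial

namespace Pool.Agent.Helper29.VS

/-- no power series with bounded denominators inverts a primitive polynomial with non-invertible
constant coefficient -/
theorem no_int_inv {F : ℤ[X]} (hF : ∀ p : ℕ, p.Prime → ¬ C (p : ℤ) ∣ F)
    (h0 : ¬ IsUnit (F.coeff 0)) : ∀ D : ℕ, 0 < D → ∀ W : PowerSeries ℤ,
      (F : PowerSeries ℤ) * W ≠ PowerSeries.C (D : ℤ) := by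
  intro D
  induction D using Nat.strong_induction_on with
  | _ D ih =>
    intro hD W hW
    rcases Nat.lt_or_ge 1 D with h1 | h1
    · obtain ⟨p, hp, hpD⟩ := Nat.exists_prime_and_dvd (by omega : D ≠ 1)
      haveI : Fact p.Prime := ⟨hp⟩
      obtain ⟨E, rfl⟩ := hpD
      have hmap := congrArg (PowerSeries.map (Int.castRingHom (ZMod p))) hW
      rw [map_mul, PowerSeries.map_C] at hmap
      have hz : (Int.castRingHom (ZMod p)) ((p * E : ℕ) : ℤ) = 0 := by
        simp
      rw [hz, map_zero] at hmap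
      rcases mul_eq_zero.1 hmap with h | h
      · refine hF p hp ?_
        rw [Polynomial.C_dvd_iff_dvd_coeff]
        intro i
        have h2 := congrArg (PowerSeries.coeff i) h
        rw [PowerSeries.coeff_map, Polynomial.coeff_coe, map_zero] at h2
        exact (ZMod.intCast_zmod_eq_zero_iff_dvd _ _).1 h2
      · have h2 : ∀ i, (p : ℤ) ∣ PowerSeries.coeff i W := by
          intro i
          have h2 := congrArg (PowerSeries.coeff i) h
          rw [PowerSeries.coeff_map, map_zero] at h2
          exact (ZMod.intCast_zmod_eq_zero_iff_dvd _ _).1 h2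
        choose W' hW' using h2
        have h3 : W = PowerSeries.C (p : ℤ) * PowerSeries.mk W' := by
          ext i
          rw [PowerSeries.coeff_C_mul, PowerSeries.coeff_mk, ← hW']
        have hE : 0 < E := Nat.pos_of_mul_pos_left hD
        refine ih E ?_ hE (PowerSeries.mk W') ?_
        · have := hp.two_le
          nlinarith
        · have h4 : PowerSeries.C (p : ℤ) * ((F : PowerSeries ℤ) * PowerSeries.mk W') =
              PowerSeries.C (p : ℤ) * PowerSeries.C (E : ℤ) := by
            rw [← map_mul, ← Nat.cast_mul, ← hW, h3]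
            ring
          refine mul_left_cancel₀ ?_ h4
          intro h5
          have h6 := congrArg (PowerSeries.coeff 0) h5
          rw [PowerSeries.coeff_zero_C, map_zero] at h6
          exact hp.ne_zero (by exact_mod_cast h6)
    · have hD1 : D = 1 := by omega
      subst hD1
      have h2 := congrArg PowerSeries.constantCoeff hW
      rw [map_mul, PowerSeries.constantCoeff_C,
        ← PowerSeries.coeff_zero_eq_constantCoeff_apply (F : PowerSeries ℤ),
        Polynomial.coeff_coe] at h2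
      exact h0 (IsUnit.of_mul_eq_one _ (by rw [h2]; simp))

/-- the inverse power series over the rational numbers -/
noncomputable def zz (F : ℤ[X]) (k : ℕ) : ℚ :=
  PowerSeries.coeff k ((PowerSeries.map (Int.castRingHom ℚ) (F : PowerSeries ℤ))⁻¹)

theorem zz_den {F : ℤ[X]} (hF : ∀ p : ℕ, p.Prime → ¬ C (p : ℤ) ∣ F)
    (h0 : ¬ IsUnit (F.coeff 0)) (h00 : F.coeff 0 ≠ 0) (D : ℕ) (hD : 0 < D) :
    ∃ k, ¬ ∃ n : ℤ, (D : ℚ) * zz F k = n := by
  by_contra hcon
  push Not at hcon
  choose W hW using hcon
  refine no_int_inv hF h0 D hD (PowerSeries.mk W) ?_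
  have hinj : Function.Injective (PowerSeries.map (Int.castRingHom ℚ)) := by
    intro a b hab
    ext i
    have := congrArg (PowerSeries.coeff i) hab
    rw [PowerSeries.coeff_map, PowerSeries.coeff_map] at this
    exact (Int.castRingHom ℚ).injective_int this
  apply hinj
  rw [map_mul, PowerSeries.map_C]
  set G := PowerSeries.map (Int.castRingHom ℚ) (F : PowerSeries ℤ) with hG
  have h1 : PowerSeries.map (Int.castRingHom ℚ) (PowerSeries.mk W) = PowerSeries.C (D : ℚ) * G⁻¹ := by
    ext i
    rw [PowerSeries.coeff_map, PowerSeries.coeff_mk, PowerSeries.coeff_C_mul]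
    exact (hW i).symm
  have h2 : PowerSeries.constantCoeff G ≠ 0 := by
    rw [hG, ← PowerSeries.coeff_zero_eq_constantCoeff_apply, PowerSeries.coeff_map,
      Polynomial.coeff_coe]
    intro h
    exact h00 ((Int.castRingHom ℚ).injective_int (by rw [h, map_zero]))
  rw [h1, mul_left_comm, PowerSeries.mul_inv_cancel _ h2, mul_one]
  congr 1

/-- the shifted sequence -/
noncomputable def zs (F : ℤ[X]) (s k : ℕ) : ℝ := if s ≤ k then ((zz F (k - s) : ℚ) : ℝ) else 0

theorem zs_rec {f : ℤ[X]} (hf : f ≠ 0) (s a : ℕ) :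
    ∃ n : ℤ, ∑ i ∈ Finset.range (f.natDegree + 1), (f.coeff i : ℝ) * zs f.reverse s (a + i) = n := by
  set d := f.natDegree with hd
  rcases Nat.lt_or_ge (a + d) s with h | h
  · refine ⟨0, ?_⟩
    rw [Int.cast_zero]
    refine Finset.sum_eq_zero fun i hi => ?_
    rw [Finset.mem_range] at hi
    rw [zs, if_neg (by omega), mul_zero]
  · set n := a + d - s with hn
    set F := f.reverse with hF
    have h00 : F.coeff 0 ≠ 0 := by
      rw [hF, Polynomial.coeff_zero_reverse]
      exact leadingCoeff_ne_zero.2 hf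
    set G := PowerSeries.map (Int.castRingHom ℚ) (F : PowerSeries ℤ) with hG
    have h2 : PowerSeries.constantCoeff G ≠ 0 := by
      rw [hG, ← PowerSeries.coeff_zero_eq_constantCoeff_apply, PowerSeries.coeff_map,
        Polynomial.coeff_coe]
      intro h
      exact h00 ((Int.castRingHom ℚ).injective_int (by rw [h, map_zero]))
    have h3 : PowerSeries.coeff n (G * G⁻¹) = if n = 0 then 1 else 0 := by
      rw [PowerSeries.mul_inv_cancel _ h2, PowerSeries.coeff_one]
    rw [PowerSeries.coeff_mul, Finset.Nat.sum_antidiagonal_eq_sum_range_succ_mk] at h3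
    refine ⟨if n = 0 then 1 else 0, ?_⟩
    have h4 : ∑ i ∈ Finset.range (d + 1), (f.coeff i : ℝ) * zs F s (a + i) =
        ((∑ k ∈ Finset.range (n + 1), PowerSeries.coeff k G * PowerSeries.coeff (n - k) G⁻¹ : ℚ) : ℝ) := by
      rw [← Finset.sum_range_reflect]
      have hA : ∑ j ∈ Finset.range (d + 1),
          (f.coeff (d + 1 - 1 - j) : ℝ) * zs F s (a + (d + 1 - 1 - j)) =
          ∑ u ∈ Finset.range (n + d + 1), (if u ≤ d ∧ u ≤ n then
            (f.coeff (d - u) : ℝ) * ((zz F (n - u) : ℚ) : ℝ) else 0) := by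
        have hsub : Finset.range (d + 1) ⊆ Finset.range (n + d + 1) := by
          intro u hu
          rw [Finset.mem_range] at hu ⊢
          omega
        rw [← Finset.sum_subset hsub]
        · refine Finset.sum_congr rfl fun u hu => ?_
          rw [Finset.mem_range] at hu
          rw [zs]
          by_cases h5 : u ≤ n
          · rw [if_pos (by omega), if_pos ⟨by omega, h5⟩]
            have e1 : d + 1 - 1 - u = d - u := by omega
            have e2 : a + (d - u) - s = n - u := by omega
            rw [e1, e2]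
          · rw [if_neg (by omega), if_neg (by omega), mul_zero]
        · intro u _ hu
          rw [Finset.mem_range] at hu
          rw [if_neg (by omega)]
      have hB : ((∑ k ∈ Finset.range (n + 1), PowerSeries.coeff k G *
          PowerSeries.coeff (n - k) G⁻¹ : ℚ) : ℝ) =
          ∑ u ∈ Finset.range (n + d + 1), (if u ≤ d ∧ u ≤ n then
            (f.coeff (d - u) : ℝ) * ((zz F (n - u) : ℚ) : ℝ) else 0) := by
        have hsub : Finset.range (n + 1) ⊆ Finset.range (n + d + 1) := by
          intro u hu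
          rw [Finset.mem_range] at hu ⊢
          omega
        rw [← Finset.sum_subset hsub]
        · rw [Rat.cast_sum]
          refine Finset.sum_congr rfl fun u hu => ?_
          rw [Finset.mem_range] at hu
          rw [Rat.cast_mul, hG, PowerSeries.coeff_map, Polynomial.coeff_coe, hF,
            Polynomial.coeff_reverse]
          by_cases h5 : u ≤ d
          · rw [Polynomial.revAt_le h5, if_pos ⟨h5, by omega⟩]
            congr 1
          · rw [Polynomial.revAt_eq_self_of_lt (by omega), if_neg (by omega),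
              Polynomial.coeff_eq_zero_of_natDegree_lt (by omega)]
            simp
        · intro u _ hu
          rw [Finset.mem_range] at hu
          rw [if_neg (by omega)]
      rw [hA, hB]
    rw [h4, h3]
    split_ifs <;> simp

theorem fnl_zs {f : ℤ[X]} (hf : f ≠ 0) (s : ℕ) (P : ℤ[X]) (h : f ∣ P) :
    ∃ n : ℤ, fnl (zs f.reverse s) P = n := by
  obtain ⟨g, rfl⟩ := h
  induction g using Polynomial.induction_on' with
  | add p q hp hq =>
    obtain ⟨n1, h1⟩ := hp
    obtain ⟨n2, h2⟩ := hq
    exact ⟨n1 + n2, by rw [mul_add, map_add, h1, h2]; push_cast; rfl⟩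
  | monomial a c =>
    obtain ⟨n, hn⟩ := zs_rec hf s a
    refine ⟨c * n, ?_⟩
    have h1 : f * monomial a c = ∑ i ∈ Finset.range (f.natDegree + 1),
        monomial (a + i) (c * f.coeff i) := by
      conv_lhs => rw [f.as_sum_range, Finset.sum_mul]
      refine Finset.sum_congr rfl fun i _ => ?_
      rw [monomial_mul_monomial, add_comm, mul_comm]
    rw [h1, map_sum, Int.cast_mul, ← hn, Finset.mul_sum]
    refine Finset.sum_congr rfl fun i _ => ?_
    rw [fnl_monomial]
    push_cast
    ring

theorem steer (z : ℚ) (hz : 17 ≤ z.den) (x : ℝ) (e : ℂ) (he : ‖e‖ = 1) :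
    ∃ c : ℤ, ‖Complex.exp (2 * Real.pi * Complex.I * ((x + c * z : ℝ) : ℂ)) - e‖ ≤ 1 / 4 := by
  set N := z.den with hN
  have hN0 : (0 : ℝ) < N := by exact_mod_cast z.pos
  have hpi := Real.pi_pos
  set t₀ : ℝ := e.arg / (2 * Real.pi) with ht
  have he' : e = Complex.exp (2 * Real.pi * Complex.I * (t₀ : ℂ)) := by
    have h := Complex.norm_mul_exp_arg_mul_I e
    rw [he, Complex.ofReal_one, one_mul] at h
    rw [← h, ht, h]
    conv_lhs => rw [← h]
    congr 1
    have : (Real.pi : ℂ) ≠ 0 := by exact_mod_cast Real.pi_ne_zero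
    push_cast
    field_simp
  set c₀ : ℤ := round ((t₀ - x) * N) with hc₀
  have hcop : IsCoprime z.num (N : ℤ) := by
    rw [Int.isCoprime_iff_gcd_eq_one]
    exact z.reduced
  obtain ⟨u, v, huv⟩ := hcop
  refine ⟨u * c₀, ?_⟩
  have hz' : ((z : ℚ) : ℝ) = (z.num : ℝ) / N := Rat.cast_def z
  have huv' : (u : ℝ) * z.num = 1 - v * N := by
    have : (u : ℝ) * z.num + v * N = 1 := by exact_mod_cast huv
    linarith
  have e1 : x + ((u * c₀ : ℤ) : ℝ) * ((z : ℚ) : ℝ) = (x + c₀ / N) + ((-(v * c₀) : ℤ) : ℝ) := by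
    rw [hz']
    push_cast
    have : (u : ℝ) * c₀ * (z.num / N) = (u * z.num) * (c₀ / N) := by ring
    rw [this, huv']
    field_simp
    ring
  have e2 : Complex.exp (2 * Real.pi * Complex.I * ((x + ((u * c₀ : ℤ) : ℝ) * ((z : ℚ) : ℝ) : ℝ) : ℂ)) =
      Complex.exp (2 * Real.pi * Complex.I * ((x + c₀ / N : ℝ) : ℂ)) := by
    rw [e1, Complex.ofReal_add, mul_add, Complex.exp_add]
    have : Complex.exp (2 * Real.pi * Complex.I * (((-(v * c₀) : ℤ) : ℝ) : ℂ)) = 1 := by
      rw [Complex.exp_eq_one_iff]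
      exact ⟨-(v * c₀), by push_cast; ring⟩
    rw [this, mul_one]
  rw [e2, he']
  have e3 : Complex.exp (2 * Real.pi * Complex.I * ((x + c₀ / N : ℝ) : ℂ)) -
      Complex.exp (2 * Real.pi * Complex.I * (t₀ : ℂ)) =
      Complex.exp (2 * Real.pi * Complex.I * (t₀ : ℂ)) *
        (Complex.exp (Complex.I * ((2 * Real.pi * (x + c₀ / N - t₀) : ℝ) : ℂ)) - 1) := by
    rw [mul_sub, ← Complex.exp_add, mul_one]
    congr 2
    push_cast
    ring
  rw [e3, norm_mul, ← he', he, one_mul]
  refine (Real.norm_exp_I_mul_ofReal_sub_one_le).trans ?_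
  rw [Real.norm_eq_abs, abs_mul, abs_of_pos (by positivity)]
  have h1 : |x + c₀ / N - t₀| ≤ 1 / 2 / N := by
    rw [le_div_iff₀ hN0]
    have h2 := abs_sub_round ((t₀ - x) * N)
    rw [← hc₀] at h2
    calc |x + c₀ / N - t₀| * N = |(x + c₀ / N - t₀) * N| := by rw [abs_mul, abs_of_pos hN0]
      _ = |(t₀ - x) * N - c₀| := by
          rw [← abs_neg]
          congr 1
          field_simp
          ring
      _ ≤ 1 / 2 := h2
  have h3 : (1 / 2 / N : ℝ) ≤ 1 / 34 := by
    rw [div_le_iff₀ hN0]
    have : (17 : ℝ) ≤ N := by exact_mod_cast hz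
    linarith
  have h4 : Real.pi < 3.15 := Real.pi_lt_d2
  calc 2 * Real.pi * |x + c₀ / N - t₀| ≤ 2 * Real.pi * (1 / 34) := by
        refine mul_le_mul_of_nonneg_left (h1.trans h3) (by positivity)
    _ ≤ 1 / 4 := by
        norm_num at h4 ⊢
        linarith

variable {V : Type*} [AddCommGroup V]

theorem ind_b (τ : Module.End ℤ V) (y : V) (f : ℤ[X]) (hf0 : f ≠ 0)
    (hf : ∀ p : ℕ, p.Prime → ¬ C (p : ℤ) ∣ f) (hlc : ¬ IsUnit f.leadingCoeff)
    (h : ∀ P : ℤ[X], aeval τ P y = 0 → f ∣ P) : ∃ r, IndA τ ((τ ^ r) y) := by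
  have hF : ∀ p : ℕ, p.Prime → ¬ C (p : ℤ) ∣ f.reverse := by
    intro p hp hd
    refine hf p hp ?_
    rw [Polynomial.C_dvd_iff_dvd_coeff] at hd ⊢
    intro i
    rcases Nat.lt_or_ge f.natDegree i with hi | hi
    · rw [Polynomial.coeff_eq_zero_of_natDegree_lt hi]
      exact dvd_zero _
    · have := hd (f.natDegree - i)
      rw [Polynomial.coeff_reverse, Polynomial.revAt_le (Nat.sub_le _ _), Nat.sub_sub_self hi] at this
      exact this
  obtain ⟨r, hr⟩ := zz_den hF (by rw [Polynomial.coeff_zero_reverse]; exact hlc)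
    (by rw [Polynomial.coeff_zero_reverse]; exact leadingCoeff_ne_zero.2 hf0)
    (Nat.factorial 16) (Nat.factorial_pos _)
  have hden : 17 ≤ (zz f.reverse r).den := by
    by_contra hlt
    push Not at hlt
    refine hr ?_
    have hdv : (zz f.reverse r).den ∣ Nat.factorial 16 :=
      Nat.dvd_factorial (zz f.reverse r).pos (by omega)
    obtain ⟨c, hc⟩ := hdv
    refine ⟨c * (zz f.reverse r).num, ?_⟩
    have h1 := (zz f.reverse r).num_div_den
    have h2 : ((zz f.reverse r).den : ℚ) ≠ 0 := by
      exact_mod_cast (zz f.reverse r).pos.ne'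
    conv_lhs => rw [← h1]
    rw [hc]
    push_cast
    field_simp
  refine ⟨r, r + 1, Nat.succ_pos _, fun m w hw => ?_⟩
  have key : ∀ m : ℕ, ∃ x : ℕ → ℝ, (∀ P : ℤ[X], f ∣ P → ∃ n : ℤ, fnl x P = n) ∧
      ∀ j < m, ‖Complex.exp (2 * Real.pi * Complex.I * (x ((r + 1) * j + r) : ℂ)) - (w j)⁻¹‖ ≤
        1 / 4 := by
    intro m
    induction m with
    | zero =>
      refine ⟨fun _ => 0, fun P _ => ⟨0, ?_⟩, fun j hj => absurd hj (Nat.not_lt_zero j)⟩
      rw [fnl_apply]
      simp [Polynomial.sum]
    | succ m ih =>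
      obtain ⟨x, hx, hj⟩ := ih
      obtain ⟨c, hc⟩ := steer (zz f.reverse r) hden (x ((r + 1) * m + r)) ((w m)⁻¹)
        (by rw [norm_inv, hw, inv_one])
      refine ⟨fun k => x k + c * zs f.reverse ((r + 1) * m) k, fun P hP => ?_, fun j hjm => ?_⟩
      · obtain ⟨n1, h1⟩ := hx P hP
        obtain ⟨n2, h2⟩ := fnl_zs hf0 ((r + 1) * m) P hP
        refine ⟨n1 + c * n2, ?_⟩
        have : fnl (fun k => x k + c * zs f.reverse ((r + 1) * m) k) P =
            fnl x P + c * fnl (zs f.reverse ((r + 1) * m)) P := by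
          rw [fnl_apply, fnl_apply, fnl_apply, Polynomial.sum, Polynomial.sum, Polynomial.sum,
            Finset.mul_sum, ← Finset.sum_add_distrib]
          refine Finset.sum_congr rfl fun k _ => ?_
          ring
        rw [this, h1, h2]
        push_cast
        rfl
      · rcases Nat.lt_succ_iff_lt_or_eq.1 hjm with h5 | rfl
        · have h6 : zs f.reverse ((r + 1) * m) ((r + 1) * j + r) = 0 := by
            rw [zs, if_neg]
            have : (r + 1) * (j + 1) ≤ (r + 1) * m := Nat.mul_le_mul_left _ h5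
            rw [mul_add] at this
            omega
          show ‖Complex.exp (2 * Real.pi * Complex.I * ((x ((r + 1) * j + r) +
            c * zs f.reverse ((r + 1) * m) ((r + 1) * j + r) : ℝ) : ℂ)) - (w j)⁻¹‖ ≤ 1 / 4
          rw [h6, mul_zero, add_zero]
          exact hj j h5
        · have h6 : zs f.reverse ((r + 1) * j) ((r + 1) * j + r) = ((zz f.reverse r : ℚ) : ℝ) := by
            rw [zs, if_pos (by omega)]
            have : (r + 1) * j + r - (r + 1) * j = r := by omega
            rw [this]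
          show ‖Complex.exp (2 * Real.pi * Complex.I * ((x ((r + 1) * j + r) +
            c * zs f.reverse ((r + 1) * j) ((r + 1) * j + r) : ℝ) : ℂ)) - (w j)⁻¹‖ ≤ 1 / 4
          rw [h6]
          exact hc
  obtain ⟨x, hx, hj⟩ := key m
  obtain ⟨ω, h1, h2, h3⟩ := poly_char τ y x fun P hP => hx P (h P hP)
  refine ⟨ω, h1, h2, sum_large hw (fun j => ω ((τ ^ ((r + 1) * j)) ((τ ^ r) y))) fun j hjm => ?_⟩
  have e : (τ ^ ((r + 1) * j)) ((τ ^ r) y) = (τ ^ ((r + 1) * j + r)) y := by
    rw [pow_add, Module.End.mul_apply]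
  show ‖ω ((τ ^ ((r + 1) * j)) ((τ ^ r) y)) - (w j)⁻¹‖ ≤ 1 / 4
  rw [e, h3]
  exact hj j hjm

end Pool.Agent.Helper29.VS
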