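import Pool.Agent.Helper29.VS.Chb

/-! Characters: torsion elements. -/

set_option autoImplicit false
set_option linter.style.haveILetI false

open Polynomial

namespace Pool.Agent.Helper29.VS

theorem re_low {m : ℕ} (v : ℕ → ℂ) (h : ∀ j < m, 1 / 2 ≤ (v j).re) :
    (m : ℝ) / 2 ≤ ‖∑ j : Fin m, v j‖ := by
  refine le_trans ?_ (Complex.re_le_norm _)
  rw [Complex.re_sum]
  calc (m : ℝ) / 2 = ∑ _j : Fin m, (1 / 2 : ℝ) := by
        rw [Finset.sum_const, Finset.card_univ, Fintype.card_fin, nsmul_eq_mul]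
        ring
    _ ≤ _ := Finset.sum_le_sum fun j _ => h j j.2

theorem choose_odd (p : ℕ) (hp : 3 ≤ p) (w : ℂ) (hw : ‖w‖ = 1) :
    ∃ a : ℤ, 1 / 2 ≤ (w * Complex.exp (2 * Real.pi * Complex.I * ((a / p : ℝ) : ℂ))).re := by
  have hpi := Real.pi_pos
  have hp0 : (0 : ℝ) < p := by
    have : 0 < p := by omega
    exact_mod_cast this
  have hw' : w = Complex.exp ((w.arg : ℂ) * Complex.I) := by
    have h := Complex.norm_mul_exp_arg_mul_I w
    rw [hw, Complex.ofReal_one, one_mul] at h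
    exact h.symm
  set a : ℤ := round (-(w.arg * p / (2 * Real.pi))) with ha
  refine ⟨a, ?_⟩
  have e1 : w * Complex.exp (2 * Real.pi * Complex.I * ((a / p : ℝ) : ℂ)) =
      Complex.exp (((w.arg + 2 * Real.pi * (a / p) : ℝ) : ℂ) * Complex.I) := by
    conv_lhs => rw [hw']
    rw [← Complex.exp_add]
    congr 1
    push_cast
    ring
  rw [e1, Complex.exp_ofReal_mul_I_re]
  have h1 : |w.arg + 2 * Real.pi * (a / p)| ≤ Real.pi / 3 := by
    have h2 := abs_sub_round (-(w.arg * p / (2 * Real.pi)))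
    rw [← ha] at h2
    have h3 : w.arg + 2 * Real.pi * (a / p) =
        -((2 * Real.pi / p) * (-(w.arg * p / (2 * Real.pi)) - a)) := by
      field_simp
      ring
    rw [h3, abs_neg, abs_mul, abs_of_pos (by positivity)]
    calc 2 * Real.pi / p * |-(w.arg * p / (2 * Real.pi)) - a| ≤ 2 * Real.pi / p * (1 / 2) := by
          exact mul_le_mul_of_nonneg_left h2 (by positivity)
      _ ≤ 2 * Real.pi / 3 * (1 / 2) := by
          refine mul_le_mul_of_nonneg_right ?_ (by norm_num)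
          exact div_le_div_of_nonneg_left (by positivity) (by norm_num) (by exact_mod_cast hp)
      _ = Real.pi / 3 := by ring
  rw [← Real.cos_abs, ← Real.cos_pi_div_three]
  exact Real.cos_le_cos_of_nonneg_of_le_pi (abs_nonneg _) (by linarith) h1

theorem choose_two (m : ℕ) (w : ℕ → ℂ) (hw : ∀ j, ‖w j‖ = 1) :
    ∃ a : ℕ → ℤ, (m : ℝ) / 2 ≤
      ‖∑ j : Fin m, w j * Complex.exp (2 * Real.pi * Complex.I * ((a j / (2 : ℕ) : ℝ) : ℂ))‖ := by
  have e0 : Complex.exp (2 * Real.pi * Complex.I * (((0 : ℤ) / (2 : ℕ) : ℝ) : ℂ)) = 1 := by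
    simp
  have e1 : Complex.exp (2 * Real.pi * Complex.I * (((1 : ℤ) / (2 : ℕ) : ℝ) : ℂ)) = -1 := by
    have : 2 * Real.pi * Complex.I * (((1 : ℤ) / (2 : ℕ) : ℝ) : ℂ) = Real.pi * Complex.I := by
      push_cast
      ring
    rw [this, Complex.exp_pi_mul_I]
  have h1 : (m : ℝ) ≤ ∑ j : Fin m, |(w j).re| + ∑ j : Fin m, |(w j).im| := by
    rw [← Finset.sum_add_distrib]
    calc (m : ℝ) = ∑ _j : Fin m, (1 : ℝ) := by
          rw [Finset.sum_const, Finset.card_univ, Fintype.card_fin, nsmul_eq_mul, mul_one]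
      _ ≤ _ := Finset.sum_le_sum fun j _ => by
          rw [← hw j]
          exact Complex.norm_le_abs_re_add_abs_im _
  rcases le_total ((m : ℝ) / 2) (∑ j : Fin m, |(w j).re|) with h2 | h2
  · refine ⟨fun j => if 0 ≤ (w j).re then 0 else 1, h2.trans ?_⟩
    refine le_trans ?_ (Complex.re_le_norm _)
    rw [Complex.re_sum]
    refine Finset.sum_le_sum fun j _ => ?_
    beta_reduce
    by_cases h : 0 ≤ (w j).re
    · rw [if_pos h, e0, mul_one, abs_of_nonneg h]
    · rw [if_neg h, e1, abs_of_neg (not_le.1 h)]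
      simp
  · refine ⟨fun j => if 0 ≤ (w j).im then 0 else 1, ?_⟩
    have h3 : (m : ℝ) / 2 ≤ ∑ j : Fin m, |(w j).im| := by linarith
    refine h3.trans ?_
    refine le_trans ?_ (Complex.im_le_norm _)
    rw [Complex.im_sum]
    refine Finset.sum_le_sum fun j _ => ?_
    beta_reduce
    by_cases h : 0 ≤ (w j).im
    · rw [if_pos h, e0, mul_one, abs_of_nonneg h]
    · rw [if_neg h, e1, abs_of_neg (not_le.1 h)]
      simp

theorem choose_p (p : ℕ) (hp : 2 ≤ p) (m : ℕ) (w : ℕ → ℂ) (hw : ∀ j, ‖w j‖ = 1) :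
    ∃ a : ℕ → ℤ, (m : ℝ) / 2 ≤
      ‖∑ j : Fin m, w j * Complex.exp (2 * Real.pi * Complex.I * ((a j / p : ℝ) : ℂ))‖ := by
  rcases Nat.lt_or_ge 2 p with h | h
  · choose a ha using fun j => choose_odd p h (w j) (hw j)
    exact ⟨a, re_low (fun j => w j * Complex.exp (2 * Real.pi * Complex.I * ((a j / p : ℝ) : ℂ)))
      fun j _ => ha j⟩
  · have : p = 2 := by omega
    subst this
    exact choose_two m w hw

variable {V : Type*} [AddCommGroup V]

theorem ind_c (τ : Module.End ℤ V) (y : V) (p : ℕ) (hp : 2 ≤ p)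
    (h : ∀ P : ℤ[X], aeval τ P y = 0 → C (p : ℤ) ∣ P) : IndA τ y := by
  refine ⟨1, one_pos, fun m w hw => ?_⟩
  obtain ⟨a, ha⟩ := choose_p p hp m w hw
  have hp0 : (p : ℝ) ≠ 0 := by
    have : p ≠ 0 := by omega
    exact_mod_cast this
  obtain ⟨ω, h1, h2, h3⟩ := poly_char τ y (fun k => (a k / p : ℝ)) (by
    intro P hP
    obtain ⟨Q, rfl⟩ := h P hP
    refine ⟨Q.sum fun k c => c * a k, ?_⟩
    have e1 : (C (p : ℤ) : ℤ[X]) * Q = (p : ℤ) • Q := by rw [Polynomial.smul_eq_C_mul]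
    rw [e1, map_zsmul, fnl_apply, Polynomial.sum, Polynomial.sum, zsmul_eq_mul, Finset.mul_sum]
    push_cast
    refine Finset.sum_congr rfl fun k _ => ?_
    field_simp)
  refine ⟨ω, h1, h2, ?_⟩
  refine ha.trans (le_of_eq ?_)
  congr 1
  refine Finset.sum_congr rfl fun j _ => ?_
  rw [h3, one_mul]

end Pool.Agent.Helper29.VS
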