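import Pool.Agent.Helper29.VP.Phase

/-! Characters with prescribed values on an orbit. -/

set_option autoImplicit false
set_option linter.style.haveILetI false

open Polynomial

namespace Pool.Agent.Helper29.VS

open Pool.Agent.Helper29.VP (ph ph_norm align')

variable {V : Type*} [AddCommGroup V]

/-- the linear functional given by a sequence -/
noncomputable def fnl (x : ℕ → ℝ) : ℤ[X] →ₗ[ℤ] ℝ :=
  Polynomial.lsum fun k => (LinearMap.toSpanSingleton ℤ ℝ (x k))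

theorem fnl_apply (x : ℕ → ℝ) (P : ℤ[X]) : fnl x P = P.sum fun k a => (a : ℝ) * x k := by
  rw [fnl, Polynomial.lsum_apply]
  refine Finset.sum_congr rfl fun k _ => ?_
  show (P.coeff k) • x k = (P.coeff k : ℝ) * x k
  rw [zsmul_eq_mul]

theorem fnl_monomial (x : ℕ → ℝ) (k : ℕ) (a : ℤ) : fnl x (monomial k a) = a * x k := by
  rw [fnl_apply, Polynomial.sum_monomial_index _ _ (by simp)]

theorem fnl_X (x : ℕ → ℝ) (k : ℕ) : fnl x (X ^ k) = x k := by
  rw [← monomial_one_right_eq_X_pow, fnl_monomial]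
  simp

theorem poly_char (τ : Module.End ℤ V) (y : V) (x : ℕ → ℝ)
    (h : ∀ P : ℤ[X], aeval τ P y = 0 → ∃ n : ℤ, fnl x P = n) :
    ∃ ω : V → ℂ, (∀ a b, ω (a + b) = ω a * ω b) ∧ (∀ a, ‖ω a‖ = 1) ∧
      ∀ j, ω ((τ ^ j) y) = Complex.exp (2 * Real.pi * Complex.I * x j) := by
  let e : ℤ[X] →+ V :=
    { toFun := fun P => aeval τ P y
      map_zero' := by rw [map_zero, LinearMap.zero_apply]
      map_add' := fun P Q => by rw [map_add, LinearMap.add_apply] }
  have he : ∀ P, e P = aeval τ P y := fun P => rfl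
  let Φ : ℤ[X] →+ UnitAddCircle := (QuotientAddGroup.mk' _).comp (fnl x).toAddMonoidHom
  have hΦ : ∀ P, Φ P = ((fnl x P : ℝ) : UnitAddCircle) := fun P => rfl
  have hker : e.ker ≤ Φ.ker := by
    intro P hP
    obtain ⟨n, hn⟩ := h P hP
    rw [AddMonoidHom.mem_ker, hΦ, hn]
    have := (AddCircle.coe_eq_zero_iff (1 : ℝ) (x := (n : ℝ))).2 ⟨n, by simp⟩
    exact this
  obtain ⟨θ, hθ⟩ := (Module.Baer.of_divisible UnitAddCircle).extension_property_addMonoidHom
    (QuotientAddGroup.kerLift e) (QuotientAddGroup.kerLift_injective e)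
    (QuotientAddGroup.lift e.ker Φ hker)
  have hθ' : ∀ P, θ (aeval τ P y) = ((fnl x P : ℝ) : UnitAddCircle) := by
    intro P
    have := DFunLike.congr_fun hθ (QuotientAddGroup.mk P)
    rw [AddMonoidHom.comp_apply, QuotientAddGroup.kerLift_mk, QuotientAddGroup.lift_mk] at this
    rw [← he, this, hΦ]
  refine ⟨fun a => (AddCircle.toCircle (θ a) : ℂ), fun a b => ?_, fun a => ?_, fun j => ?_⟩
  · show ((AddCircle.toCircle (θ (a + b)) : Circle) : ℂ) = _
    rw [map_add, AddCircle.toCircle_add, Circle.coe_mul]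
  · exact Circle.norm_coe _
  · show ((AddCircle.toCircle (θ ((τ ^ j) y)) : Circle) : ℂ) = _
    have h1 : (τ ^ j) y = aeval τ (X ^ j : ℤ[X]) y := by rw [map_pow, aeval_X]
    rw [h1, hθ', fnl_X, AddCircle.toCircle_apply_mk, Circle.coe_exp]
    congr 1
    push_cast
    ring

/-- independence of an orbit -/
def IndA (τ : Module.End ℤ V) (y : V) : Prop :=
  ∃ q : ℕ, 0 < q ∧ ∀ (m : ℕ) (w : ℕ → ℂ), (∀ j, ‖w j‖ = 1) →
    ∃ ω : V → ℂ, (∀ a b, ω (a + b) = ω a * ω b) ∧ (∀ a, ‖ω a‖ = 1) ∧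
      (m : ℝ) / 2 ≤ ‖∑ j : Fin m, w j * ω ((τ ^ (q * j)) y)‖

theorem sum_large {m : ℕ} {w : ℕ → ℂ} (hw : ∀ j, ‖w j‖ = 1) (v : ℕ → ℂ)
    (h : ∀ j < m, ‖v j - (w j)⁻¹‖ ≤ 1 / 4) : (m : ℝ) / 2 ≤ ‖∑ j : Fin m, w j * v j‖ := by
  have h1 : ∑ j : Fin m, w j * v j = (m : ℂ) + ∑ j : Fin m, w j * (v j - (w j)⁻¹) := by
    rw [← sub_eq_iff_eq_add, ← Finset.sum_sub_distrib]
    have : ∀ j ∈ (Finset.univ : Finset (Fin m)), w j * v j - w j * (v j - (w j)⁻¹) = 1 := by
      intro j _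
      have h0 : w j ≠ 0 := by
        intro h0
        have := hw j
        rw [h0, norm_zero] at this
        exact zero_ne_one this
      field_simp
      ring
    rw [Finset.sum_congr rfl this]
    simp
  have h2 : ‖∑ j : Fin m, w j * (v j - (w j)⁻¹)‖ ≤ 1 / 4 * m := by
    refine (norm_sum_le _ _).trans ?_
    calc ∑ j : Fin m, ‖w j * (v j - (w j)⁻¹)‖ ≤ ∑ _j : Fin m, (1 / 4 : ℝ) := by
          refine Finset.sum_le_sum fun j _ => ?_
          rw [norm_mul, hw, one_mul]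
          exact h j j.2
      _ = 1 / 4 * (m : ℝ) := by
          rw [Finset.sum_const, Finset.card_univ, Fintype.card_fin, nsmul_eq_mul]
          ring
  have h3 : (m : ℝ) ≤ ‖∑ j : Fin m, w j * v j‖ + ‖∑ j : Fin m, w j * (v j - (w j)⁻¹)‖ := by
    calc (m : ℝ) = ‖(m : ℂ)‖ := by simp
      _ = ‖∑ j : Fin m, w j * v j - ∑ j : Fin m, w j * (v j - (w j)⁻¹)‖ := by rw [h1]; simp
      _ ≤ _ := norm_sub_le _ _
  have h4 : (0 : ℝ) ≤ m := by positivity
  linarith

/-- **expanding roots** -/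
theorem ind_a (τ : Module.End ℤ V) (y : V) (l : ℂ) (hl : 1 < ‖l‖)
    (h : ∀ P : ℤ[X], aeval τ P y = 0 → aeval l P = 0) : IndA τ y := by
  obtain ⟨q, hq⟩ := pow_unbounded_of_one_lt 16 hl
  have hq0 : 0 < q := by
    rcases Nat.eq_zero_or_pos q with rfl | h0
    · rw [pow_zero] at hq
      norm_num at hq
    · exact h0
  refine ⟨q, hq0, fun m w hw => ?_⟩
  have hκ : (16 : ℝ) ≤ ‖l ^ q‖ := by
    rw [norm_pow]
    exact hq.le
  obtain ⟨s, hs⟩ := align' (κ := l ^ q) (c := 1) one_ne_zero hκ (fun j => (w j)⁻¹)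
    (fun j => by rw [norm_inv, hw, inv_one]) m
  obtain ⟨ω, h1, h2, h3⟩ := poly_char τ y (fun k => (s * l ^ k).re / (2 * Real.pi)) (by
    intro P hP
    refine ⟨0, ?_⟩
    have e1 : fnl (fun k => (s * l ^ k).re / (2 * Real.pi)) P =
        (s * aeval l P).re / (2 * Real.pi) := by
      rw [fnl_apply, aeval_eq_sum_range, Polynomial.sum_over_range _ (by simp), Finset.mul_sum,
        Complex.re_sum, Finset.sum_div]
      refine Finset.sum_congr rfl fun k _ => ?_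
      rw [← mul_div_assoc]
      congr 1
      rw [zsmul_eq_mul, mul_left_comm, Complex.mul_re]
      simp
    rw [e1, h P hP]
    simp)
  refine ⟨ω, h1, h2, ?_⟩
  refine sum_large hw (fun j => ω ((τ ^ (q * j)) y)) fun j hj => ?_
  have := hs j hj
  show ‖ω ((τ ^ (q * j)) y) - (w j)⁻¹‖ ≤ 1 / 4
  rw [h3]
  refine le_of_eq_of_le ?_ this
  congr 2
  rw [ph]
  congr 1
  rw [mul_one, ← pow_mul]
  push_cast
  have : (Real.pi : ℂ) ≠ 0 := by exact_mod_cast Real.pi_ne_zero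
  field_simp

end Pool.Agent.Helper29.VS
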