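import Pool.Agent.Helper29.VS.Chc

/-! The dichotomy: independence or quasi-unipotence. -/

set_option autoImplicit false
set_option linter.style.haveILetI false

open Polynomial

namespace Pool.Agent.Helper29.VS

variable {V : Type*} [AddCommGroup V]

/-- quasi-unipotence at a vector -/
def QU (τ : Module.End ℤ V) (x : V) : Prop :=
  ∃ m : ℕ, 0 < m ∧ ∃ k : ℕ, aeval τ ((X ^ m - 1) ^ k : ℤ[X]) x = 0

theorem pow_sub_dvd (m n : ℕ) : (X ^ m - 1 : ℤ[X]) ∣ X ^ (m * n) - 1 := by
  have := sub_dvd_pow_sub_pow (X ^ m : ℤ[X]) 1 n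
  rwa [one_pow, ← pow_mul] at this

theorem QU.of_dvd {τ : Module.End ℤ V} {y : V} {Q : ℤ[X]} {N a : ℕ} (hN : 0 < N)
    (hQ : Q ∣ (X ^ N - 1) ^ a) (h : QU τ (aeval τ Q y)) : QU τ y := by
  obtain ⟨m, hm, k, hk⟩ := h
  refine ⟨m * N, Nat.mul_pos hm hN, k + a, ?_⟩
  have h1 : ((X ^ m - 1) ^ k * Q : ℤ[X]) ∣ (X ^ (m * N) - 1) ^ (k + a) := by
    rw [pow_add]
    refine mul_dvd_mul (pow_dvd_pow_of_dvd (pow_sub_dvd m N) k) (hQ.trans ?_)
    rw [mul_comm m N]
    exact pow_dvd_pow_of_dvd (pow_sub_dvd N m) a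
  obtain ⟨R, hR⟩ := h1
  rw [hR, mul_comm, map_mul, map_mul, Module.End.mul_apply, Module.End.mul_apply, hk, map_zero]

theorem QU.zero (τ : Module.End ℤ V) : QU τ (0 : V) := ⟨1, one_pos, 0, map_zero _⟩

theorem aeval_C_apply (τ : Module.End ℤ V) (c : ℤ) (y : V) : aeval τ (C c : ℤ[X]) y = c • y := by
  rw [aeval_C, algebraMap_int_eq, Int.coe_castRingHom]
  exact Module.End.intCast_apply c y

/-- in a polynomial ring over a finite field some power of `X` is periodic modulo a polynomial -/
theorem exists_period (p : ℕ) [Fact p.Prime] (P : ℤ[X]) (hP : ¬ C (p : ℤ) ∣ P) :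
    ∃ i j : ℕ, i < j ∧ ∃ Q R : ℤ[X], X ^ j - X ^ i = P * Q + C (p : ℤ) * R := by
  set P' : (ZMod p)[X] := P.map (Int.castRingHom (ZMod p)) with hP'
  have hdv : ∀ S : ℤ[X], S.map (Int.castRingHom (ZMod p)) = 0 → C (p : ℤ) ∣ S := by
    intro S hS
    rw [Polynomial.C_dvd_iff_dvd_coeff]
    intro i
    have h2 := congrArg (fun T => Polynomial.coeff T i) hS
    simp only [Polynomial.coeff_map, Polynomial.coeff_zero] at h2
    exact (ZMod.intCast_zmod_eq_zero_iff_dvd _ _).1 h2
  have hne : P' ≠ 0 := fun h => hP (hdv P h)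
  haveI h1 : Module.Finite (ZMod p) (AdjoinRoot P') := (AdjoinRoot.powerBasis hne).finite
  haveI h2 : Finite (AdjoinRoot P') := Module.finite_of_finite (ZMod p)
  obtain ⟨i, j, hij, he⟩ := Finite.exists_ne_map_eq_of_infinite
    (fun n : ℕ => (AdjoinRoot.root P') ^ n)
  have key : ∀ i j : ℕ, i < j → (AdjoinRoot.root P') ^ i = (AdjoinRoot.root P') ^ j →
      ∃ i j : ℕ, i < j ∧ ∃ Q R : ℤ[X], X ^ j - X ^ i = P * Q + C (p : ℤ) * R := by
    intro i j hij he
    have h3 : AdjoinRoot.mk P' (X ^ j - X ^ i) = 0 := by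
      rw [map_sub, map_pow, map_pow, AdjoinRoot.mk_X, he, sub_self]
    rw [AdjoinRoot.mk_eq_zero] at h3
    obtain ⟨Q', hQ'⟩ := h3
    obtain ⟨Q, hQ⟩ := Polynomial.map_surjective (Int.castRingHom (ZMod p))
      (ZMod.ringHom_surjective _) Q'
    obtain ⟨R, hR⟩ := hdv (X ^ j - X ^ i - P * Q) (by
      rw [Polynomial.map_sub, Polynomial.map_sub, Polynomial.map_pow, Polynomial.map_pow,
        Polynomial.map_X, Polynomial.map_mul, hQ, ← hP', ← hQ', sub_self])
    exact ⟨i, j, hij, Q, R, by rw [← hR]; ring⟩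
  rcases lt_or_gt_of_ne hij with h | h
  · exact key i j h he
  · exact key j i h he.symm

variable {τ : Module.End ℤ V}

theorem tors_QU (hτ : Function.Injective τ) (hI : ∀ y, ¬ IndA τ y) :
    ∀ c : ℕ, 0 < c → ∀ y : V, c • y = 0 → QU τ y := by
  intro c
  induction c using Nat.strong_induction_on with
  | _ c ih =>
    intro hc y hy
    rcases Nat.lt_or_ge 1 c with h1 | h1
    · obtain ⟨p, hp, hpc⟩ := Nat.exists_prime_and_dvd (by omega : c ≠ 1)
      haveI : Fact p.Prime := ⟨hp⟩
      obtain ⟨E, rfl⟩ := hpc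
      have hE : 0 < E := Nat.pos_of_mul_pos_left hc
      set z := E • y with hz
      have hpz : p • z = 0 := by rw [hz, smul_smul, hy]
      have h2 : ∃ P : ℤ[X], aeval τ P z = 0 ∧ ¬ C (p : ℤ) ∣ P := by
        by_contra hcon
        push Not at hcon
        exact hI z (ind_c τ z p hp.two_le hcon)
      obtain ⟨P, hPz, hPd⟩ := h2
      obtain ⟨i, j, hij, Q, R, hQR⟩ := exists_period p P hPd
      have h3 : aeval τ (X ^ j - X ^ i : ℤ[X]) z = 0 := by
        rw [hQR, map_add, LinearMap.add_apply, mul_comm P Q, map_mul, Module.End.mul_apply, hPz,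
          map_zero, zero_add, mul_comm, map_mul, Module.End.mul_apply, aeval_C_apply]
        have : ((p : ℤ)) • z = 0 := by rw [natCast_zsmul, hpz]
        rw [this, map_zero]
      have h4 : (X ^ j - X ^ i : ℤ[X]) = X ^ i * (X ^ (j - i) - 1) := by
        rw [mul_sub, mul_one, ← pow_add, Nat.add_sub_cancel' hij.le]
      have h5 : aeval τ (X ^ (j - i) - 1 : ℤ[X]) z = 0 := by
        rw [h4, map_mul, Module.End.mul_apply, map_pow, aeval_X] at h3
        have hinj : Function.Injective (τ ^ i) := by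
          rw [Module.End.coe_pow]
          exact hτ.iterate i
        exact hinj (by rw [h3, map_zero])
      have h6 : QU τ (aeval τ (X ^ (j - i) - 1 : ℤ[X]) y) := by
        refine ih E ?_ hE _ ?_
        · have := hp.two_le
          nlinarith
        · rw [← map_nsmul, ← hz, h5]
      exact QU.of_dvd (N := j - i) (a := 1) (by omega) (by rw [pow_one]) h6
    · have : c = 1 := by omega
      subst this
      rw [one_smul] at hy
      rw [hy]
      exact QU.zero τ

theorem dvd_of_C_mul {f P : ℤ[X]} (hf : f.IsPrimitive) {b : ℤ} (hb : b ≠ 0) (h : f ∣ C b * P) :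
    f ∣ P := by
  rw [IsPrimitive.Int.dvd_iff_map_cast_dvd_map_cast _ _ hf] at h ⊢
  rw [Polynomial.map_mul, Polynomial.map_C] at h
  have hu : IsUnit (C ((Int.castRingHom ℚ) b)) := by
    rw [Polynomial.isUnit_C]
    exact isUnit_iff_ne_zero.2 (by simpa using hb)
  exact (hu.dvd_mul_left).1 h

/-- division by an annihilating polynomial of minimal degree -/
theorem min_dvd (y : V) (f₀ : ℤ[X]) (hf0 : f₀ ≠ 0) (hy : aeval τ f₀ y = 0)
    (hmin : ∀ g : ℤ[X], g ≠ 0 → aeval τ g y = 0 → f₀.natDegree ≤ g.natDegree) :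
    ∀ (n : ℕ) (P : ℤ[X]), P.natDegree ≤ n → aeval τ P y = 0 → ∃ b : ℤ, b ≠ 0 ∧ f₀ ∣ C b * P := by
  intro n
  induction n with
  | zero =>
    intro P hP hPy
    by_cases h0 : P = 0
    · exact ⟨1, one_ne_zero, by rw [h0, mul_zero]; exact dvd_zero _⟩
    · have h1 := hmin P h0 hPy
      have h2 : f₀.natDegree = 0 := by omega
      obtain ⟨c, hc⟩ := Polynomial.natDegree_eq_zero.1 h2
      have hc0 : c ≠ 0 := by
        rintro rfl
        exact hf0 (by rw [← hc, map_zero])
      exact ⟨c, hc0, by rw [← hc]; exact dvd_mul_right _ _⟩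
  | succ n ih =>
    intro P hP hPy
    by_cases h0 : P = 0
    · exact ⟨1, one_ne_zero, by rw [h0, mul_zero]; exact dvd_zero _⟩
    have h1 := hmin P h0 hPy
    rcases Nat.lt_or_ge P.natDegree (n + 1) with h2 | h2
    · exact ih P (by omega) hPy
    · have hPd : P.natDegree = n + 1 := le_antisymm hP h2
      set e := P.natDegree - f₀.natDegree with he
      set P' : ℤ[X] := C f₀.leadingCoeff * P - C P.leadingCoeff * X ^ e * f₀ with hP'
      have hP'y : aeval τ P' y = 0 := by
        rw [hP', map_sub, LinearMap.sub_apply, map_mul, Module.End.mul_apply, hPy, map_zero,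
          map_mul, Module.End.mul_apply, hy, map_zero, sub_zero]
      have hlc0 : f₀.leadingCoeff ≠ 0 := leadingCoeff_ne_zero.2 hf0
      have hlcP : P.leadingCoeff ≠ 0 := leadingCoeff_ne_zero.2 h0
      have hdeg : P'.natDegree ≤ n := by
        by_cases hz : P' = 0
        · rw [hz]
          simp
        have h3 : P'.degree < P.degree := by
          have hA : (C f₀.leadingCoeff * P).degree = P.degree := Polynomial.degree_C_mul hlc0
          have hB : (C P.leadingCoeff * X ^ e * f₀).degree = P.degree := by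
            rw [mul_assoc, Polynomial.degree_C_mul hlcP, degree_mul, degree_X_pow,
              Polynomial.degree_eq_natDegree hf0, Polynomial.degree_eq_natDegree h0, ← Nat.cast_add]
            congr 1
            omega
          have := Polynomial.degree_sub_lt_left (hA.trans hB.symm)
            (mul_ne_zero (by rwa [Ne, Polynomial.C_eq_zero]) h0)
            (by
              rw [leadingCoeff_mul, leadingCoeff_C, leadingCoeff_mul, leadingCoeff_mul,
                leadingCoeff_C, leadingCoeff_X_pow, mul_one]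
              ring)
          rwa [hA] at this
        have h4 := Polynomial.natDegree_lt_natDegree hz h3
        omega
      obtain ⟨b, hb, hdv⟩ := ih P' hdeg hP'y
      refine ⟨b * f₀.leadingCoeff, mul_ne_zero hb hlc0, ?_⟩
      have e1 : C (b * f₀.leadingCoeff) * P = C b * P' + f₀ * (C b * (C P.leadingCoeff * X ^ e)) := by
        rw [hP', map_mul]
        ring
      rw [e1]
      exact dvd_add hdv (dvd_mul_right _ _)

theorem mahler_one (f : ℤ[X]) (hlc : IsUnit f.leadingCoeff)
    (hr : ∀ z : ℂ, aeval z f = 0 → ‖z‖ ≤ 1) :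
    (f.map (Int.castRingHom ℂ)).mahlerMeasure = 1 := by
  rw [mahlerMeasure_eq_leadingCoeff_mul_prod_roots]
  have h1 : ‖(f.map (Int.castRingHom ℂ)).leadingCoeff‖ = 1 := by
    rw [Polynomial.leadingCoeff_map_of_injective (Int.castRingHom ℂ).injective_int]
    rcases Int.isUnit_iff.1 hlc with h | h <;> rw [h] <;> simp
  have h2 : ((f.map (Int.castRingHom ℂ)).roots.map (fun a ↦ max 1 ‖a‖)).prod = 1 := by
    refine Multiset.prod_eq_one fun x hx => ?_
    rw [Multiset.mem_map] at hx
    obtain ⟨a, ha, rfl⟩ := hx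
    refine max_eq_left (hr a ?_)
    have := (Polynomial.mem_roots'.1 ha).2
    rw [IsRoot.def, Polynomial.eval_map] at this
    rw [aeval_def]
    exact this
  rw [h1, h2, one_mul]

theorem deg_QU (hτ : Function.Injective τ) (hI : ∀ y, ¬ IndA τ y) :
    ∀ (d : ℕ) (y : V) (f : ℤ[X]), f ≠ 0 → f.natDegree ≤ d → aeval τ f y = 0 → QU τ y := by
  intro d
  induction d with
  | zero =>
    intro y f hf0 hd hfy
    obtain ⟨c, hc⟩ := Polynomial.natDegree_eq_zero.1 (Nat.le_zero.1 hd)
    have hc0 : c ≠ 0 := by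
      rintro rfl
      exact hf0 (by rw [← hc, map_zero])
    rw [← hc, aeval_C_apply] at hfy
    refine tors_QU hτ hI c.natAbs (Int.natAbs_pos.2 hc0) y ?_
    rw [← natCast_zsmul]
    rcases Int.natAbs_eq c with h | h
    · rw [← h, hfy]
    · have : ((c.natAbs : ℤ)) = -c := by omega
      rw [this, neg_smul, hfy, neg_zero]
  | succ d ih =>
    intro y f hf0 hd hfy
    classical
    -- the minimal degree
    have hex : ∃ n, ∃ g : ℤ[X], g ≠ 0 ∧ g.natDegree = n ∧ aeval τ g y = 0 := ⟨_, f, hf0, rfl, hfy⟩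
    obtain ⟨f₀, hf₀, hdeg, hf₀y⟩ := Nat.find_spec hex
    have hmin : ∀ g : ℤ[X], g ≠ 0 → aeval τ g y = 0 → f₀.natDegree ≤ g.natDegree := by
      intro g hg hgy
      rw [hdeg]
      exact Nat.find_min' hex ⟨g, hg, rfl, hgy⟩
    have hle : f₀.natDegree ≤ d + 1 := (hmin f hf0 hfy).trans hd
    rcases Nat.lt_or_ge f₀.natDegree (d + 1) with h1 | h1
    · exact ih y f₀ hf₀ (by omega) hf₀y
    have hn : f₀.natDegree = d + 1 := le_antisymm hle h1
    set c := f₀.content with hc
    set g := f₀.primPart with hg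
    have hfg : f₀ = C c * g := f₀.eq_C_content_mul_primPart
    have hgp : g.IsPrimitive := f₀.isPrimitive_primPart
    have hg0 : g ≠ 0 := hgp.ne_zero
    have hc0 : c ≠ 0 := by
      intro h
      rw [h, map_zero, zero_mul] at hfg
      exact hf₀ hfg
    have hgd : g.natDegree = d + 1 := by rw [hg, Polynomial.natDegree_primPart, hn]
    have hdvd : ∀ P : ℤ[X], aeval τ P y = 0 → g ∣ P := by
      intro P hP
      obtain ⟨b, hb, hdv⟩ := min_dvd y f₀ hf₀ hf₀y hmin _ P le_rfl hP
      refine dvd_of_C_mul hgp hb (dvd_trans ?_ hdv)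
      rw [hfg]
      exact dvd_mul_left _ _
    have hroot : ∀ z : ℂ, aeval z g = 0 → ‖z‖ ≤ 1 := by
      intro z hz
      by_contra hlt
      push Not at hlt
      refine hI y (ind_a τ y z hlt fun P hP => ?_)
      obtain ⟨Q, rfl⟩ := hdvd P hP
      rw [map_mul, hz, zero_mul]
    have hlc : IsUnit g.leadingCoeff := by
      by_contra hlc
      obtain ⟨r, hr⟩ := ind_b τ y g hg0 (by
        intro p hp hd
        have := hgp _ hd
        rw [Int.isUnit_iff] at this
        have := hp.two_le
        omega) hlc hdvd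
      exact hI _ hr
    have hX : ¬ X ∣ g := by
      rintro ⟨g', hg'⟩
      have h2 : aeval τ (C c * g') y = 0 := by
        apply hτ
        rw [map_zero]
        have : τ (aeval τ (C c * g') y) = aeval τ f₀ y := by
          rw [hfg, hg', mul_left_comm, map_mul (aeval τ) X, Module.End.mul_apply, aeval_X]
        rw [this, hf₀y]
      have hg'0 : g' ≠ 0 := by
        rintro rfl
        exact hg0 (by rw [hg', mul_zero])
      have h3 := hmin (C c * g') (mul_ne_zero (by rwa [Ne, Polynomial.C_eq_zero]) hg'0) h2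
      rw [Polynomial.natDegree_C_mul hc0] at h3
      have h4 : g.natDegree = g'.natDegree + 1 := by
        rw [hg', Polynomial.natDegree_X_mul hg'0]
      omega
    obtain ⟨N, hN, hcyc⟩ := cyclotomic_dvd_of_mahlerMeasure_eq_one (mahler_one g hlc hroot) hX (by
      rw [Polynomial.degree_eq_natDegree hg0, hgd]
      exact_mod_cast Nat.succ_ne_zero d)
    obtain ⟨g', hg'⟩ := hcyc
    have hg'0 : g' ≠ 0 := by
      rintro rfl
      exact hg0 (by rw [hg', mul_zero])
    refine QU.of_dvd (N := N) (a := 1) hN (Q := cyclotomic N ℤ) (by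
      rw [pow_one]
      exact cyclotomic.dvd_X_pow_sub_one N ℤ) ?_
    refine ih _ (C c * g') (mul_ne_zero (by rwa [Ne, Polynomial.C_eq_zero]) hg'0) ?_ ?_
    · rw [Polynomial.natDegree_C_mul hc0]
      have h4 : g.natDegree = (cyclotomic N ℤ).natDegree + g'.natDegree := by
        rw [hg', Polynomial.natDegree_mul (cyclotomic_ne_zero N ℤ) hg'0]
      have h5 : 0 < (cyclotomic N ℤ).natDegree := by
        rw [natDegree_cyclotomic]
        exact Nat.totient_pos.2 hN
      omega
    · rw [← Module.End.mul_apply, ← map_mul]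
      have : C c * g' * cyclotomic N ℤ = f₀ := by
        rw [hfg, hg']
        ring
      rw [this, hf₀y]

/-- **The dichotomy.** -/
theorem dich (hτ : Function.Injective τ) (hI : ∀ y, ¬ IndA τ y) (y : V) : QU τ y := by
  have h1 : ∃ P : ℤ[X], P ≠ 0 ∧ aeval τ P y = 0 := by
    by_contra hcon
    push Not at hcon
    refine hI y (ind_a τ y 2 (by norm_num) fun P hP => ?_)
    have : P = 0 := by
      by_contra h0
      exact hcon P h0 hP
    rw [this, map_zero]
  obtain ⟨P, h0, hP⟩ := h1
  exact deg_QU hτ hI _ y P h0 le_rfl hP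

end Pool.Agent.Helper29.VS
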