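import Pool.Agent.Helper29.VS.Tow
import Pool.Agent.Helper29.VS.Ent
import Pool.Agent.Helper29.VS.Dic

/-! Without independent orbits the automorphism is quasi-unipotent on the abelianizations. -/

set_option autoImplicit false
set_option linter.style.haveILetI false

open Subgroup Polynomial

namespace Pool.Agent.Helper29.VS

open Pool.Agent.Helper29.NU (Dg rsA rsA_pow Dg_rsA)

variable {G : Type} [Group G]

theorem qua_of_no_indep {σ : MulAut G} (h : ∀ (N : Subgroup G) (g : G), ¬ Indep σ N g) : QUA σ := by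
  intro N hN x hx
  set τ : MulAut N := rsA σ N hN with hτdef
  let M := Additive (Abelianization N)
  let L : MulAut N → (M →ₗ[ℤ] M) := fun τ =>
    (MonoidHom.toAdditive (Abelianization.map τ.toMonoidHom)).toIntLinearMap
  let o : N → M := fun x => Additive.ofMul (Abelianization.of x)
  have ho : ∀ y : M, ∃ x, o x = y := by
    intro y
    obtain ⟨x, hx⟩ := QuotientGroup.mk_surjective (Additive.toMul y)
    exact ⟨x, congrArg Additive.ofMul hx⟩
  have hL : ∀ (τ : MulAut N) (x : N), L τ (o x) = o (τ x) := fun τ x => rfl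
  have hinj : Function.Injective (L τ) := by
    intro y z hyz
    obtain ⟨a, rfl⟩ := ho y
    obtain ⟨b, rfl⟩ := ho z
    have h1 := congrArg (L τ⁻¹) hyz
    rw [hL, hL, hL, hL, MulAut.inv_apply_self, MulAut.inv_apply_self] at h1
    exact h1
  have hLpow : ∀ (n : ℕ) (x : N), ((L τ : Module.End ℤ M) ^ n) (o x) = o ((τ ^ n) x) := by
    intro n
    induction n with
    | zero => intro x; rfl
    | succ n ih =>
      intro x
      rw [pow_succ, Module.End.mul_apply, hL, ih, pow_succ, MulAut.mul_apply]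
  have hpow : ∀ (n : ℕ) (x : G), (σ ^ n) x = (σ^[n]) x := by
    intro n
    induction n with
    | zero => intro x; rfl
    | succ n ih => intro x; rw [pow_succ, MulAut.mul_apply, ih, Function.iterate_succ_apply]
  have hit : ∀ (x : N) (j : ℕ), (σ^[j]) (x : G) ∈ N := by
    intro x j
    rw [← hpow, ← rsA_pow σ N hN]
    exact Subtype.prop _
  have hI : ∀ y : M, ¬ IndA (L τ) y := by
    intro y hy
    obtain ⟨x', rfl⟩ := ho y
    obtain ⟨q, hq, hind⟩ := hy
    refine h N x' ⟨hit x', q, hq, fun m w hw => ?_⟩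
    obtain ⟨ω, h1, h2, h3⟩ := hind m w hw
    refine ⟨fun n => ω (o n), fun a b => ?_, fun a => h2 _, ?_⟩
    · show ω (o (a * b)) = ω (o a) * ω (o b)
      rw [← h1]
      rfl
    · refine h3.trans (le_of_eq ?_)
      congr 1
      refine Finset.sum_congr rfl fun j _ => ?_
      rw [hLpow]
      congr 3
      exact Subtype.ext (by rw [rsA_pow, hpow])
  obtain ⟨m, hm, k, hk⟩ := dich hinj hI (o ⟨x, hx⟩)
  refine ⟨m, hm, k, ?_⟩
  have hk' : (((L τ : Module.End ℤ M) ^ m - 1) ^ k) (o ⟨x, hx⟩) = 0 := by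
    rw [← hk, map_pow, map_sub, map_pow, aeval_X, map_one]
  have hD : ∀ (k : ℕ) (x : N), o ((Dg (τ ^ m))^[k] x) =
      (((L τ : Module.End ℤ M) ^ m - 1) ^ k) (o x) := by
    intro k
    induction k with
    | zero => intro x; rfl
    | succ k ih =>
      intro x
      rw [Function.iterate_succ_apply, ih, pow_succ, Module.End.mul_apply]
      congr 1
      show o (x⁻¹ * (τ ^ m) x) = ((L τ : Module.End ℤ M) ^ m) (o x) - o x
      rw [hLpow]
      have : o (x⁻¹ * (τ ^ m) x) = - o x + o ((τ ^ m) x) := rfl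
      rw [this, neg_add_eq_sub]
  have h3 := hD k ⟨x, hx⟩
  rw [hk'] at h3
  have h4 : Abelianization.of ((Dg (τ ^ m))^[k] ⟨x, hx⟩) = 1 := congrArg Additive.toMul h3
  rw [← MonoidHom.mem_ker, Abelianization.ker_of] at h4
  have h5 := mem_map_of_mem N.subtype h4
  have h6 : (commutator N).map N.subtype = ⁅N, N⁆ := by
    rw [_root_.commutator_def, Subgroup.map_commutator, ← MonoidHom.range_eq_map,
      Subgroup.range_subtype]
  rw [h6] at h5
  have h7 : N.subtype ((Dg (τ ^ m))^[k] ⟨x, hx⟩) = (Dg (σ ^ m))^[k] x := Dg_rsA σ N hN m k ⟨x, hx⟩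
  rwa [h7] at h5

end Pool.Agent.Helper29.VS
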