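import Mathlib

/-! Vectors on which a set of operators acts nilpotently. -/

set_option autoImplicit false
set_option linter.style.haveILetI false

open Subgroup

namespace Pool.Agent.Helper29.VS

variable {Q Q' : Type} [Group Q] [Group Q'] {V : Type} [AddCommGroup V]

/-- the vectors which are killed by all products of `k` operators `x - 1`, `x` in `X` -/
def Fx (ρ : Q →* Module.End ℤ V) (X : Set Q) : ℕ → AddSubgroup V
  | 0 => ⊥
  | k + 1 =>
    { carrier := {v | ∀ x ∈ X, ρ x v - v ∈ Fx ρ X k}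
      add_mem' := by
        intro a b ha hb x hx
        have e : ρ x (a + b) - (a + b) = (ρ x a - a) + (ρ x b - b) := by
          rw [map_add]
          abel
        rw [e]
        exact add_mem (ha x hx) (hb x hx)
      zero_mem' := by
        intro x _
        rw [map_zero, sub_zero]
        exact zero_mem _
      neg_mem' := by
        intro a ha x hx
        have e : ρ x (-a) - -a = -(ρ x a - a) := by
          rw [map_neg]
          abel
        rw [e]
        exact neg_mem (ha x hx) }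

variable {ρ : Q →* Module.End ℤ V} {X : Set Q}

theorem mem_Fx_zero {v : V} : v ∈ Fx ρ X 0 ↔ v = 0 := AddSubgroup.mem_bot

theorem mem_Fx_succ {k : ℕ} {v : V} : v ∈ Fx ρ X (k + 1) ↔ ∀ x ∈ X, ρ x v - v ∈ Fx ρ X k := Iff.rfl

theorem Fx_succ_le (k : ℕ) : Fx ρ X k ≤ Fx ρ X (k + 1) := by
  induction k with
  | zero =>
    intro v hv
    rw [mem_Fx_zero] at hv
    rw [hv]
    exact zero_mem _
  | succ k ih => exact fun v hv x hx => ih (hv x hx)

theorem Fx_mono : Monotone (Fx ρ X) := monotone_nat_of_le_succ Fx_succ_le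

theorem Fx_anti {Y : Set Q} (h : X ⊆ Y) (k : ℕ) : Fx ρ Y k ≤ Fx ρ X k := by
  induction k with
  | zero => exact le_rfl
  | succ k ih => exact fun v hv x hx => ih (hv x (h hx))

theorem Fx_inv (k : ℕ) {x : Q} (hx : x ∈ X) {v : V} (hv : v ∈ Fx ρ X k) : ρ x v ∈ Fx ρ X k := by
  cases k with
  | zero =>
    rw [mem_Fx_zero] at hv ⊢
    rw [hv, map_zero]
  | succ k =>
    have e : ρ x v = (ρ x v - v) + v := by abel
    rw [e]
    exact add_mem (Fx_succ_le k (hv x hx)) hv

theorem rho_inv_apply (x : Q) (v : V) : ρ x⁻¹ (ρ x v) = v := by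
  rw [← Module.End.mul_apply, ← map_mul, inv_mul_cancel, map_one, Module.End.one_apply]

theorem Fx_inv' (k : ℕ) {x : Q} (hx : x ∈ X) {v : V} (hv : v ∈ Fx ρ X k) : ρ x⁻¹ v ∈ Fx ρ X k := by
  induction k generalizing v with
  | zero =>
    rw [mem_Fx_zero] at hv ⊢
    rw [hv, map_zero]
  | succ k ih =>
    have e : ρ x⁻¹ v = v - ρ x⁻¹ (ρ x v - v) := by
      rw [map_sub, rho_inv_apply]
      abel
    rw [e]
    exact sub_mem hv (Fx_succ_le k (ih (hv x hx)))

theorem Fx_closure_inv (k : ℕ) {y : Q} (hy : y ∈ closure X) :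
    (∀ v ∈ Fx ρ X k, ρ y v ∈ Fx ρ X k) ∧ ∀ v ∈ Fx ρ X k, ρ y⁻¹ v ∈ Fx ρ X k := by
  induction hy using closure_induction with
  | mem x hx => exact ⟨fun v hv => Fx_inv k hx hv, fun v hv => Fx_inv' k hx hv⟩
  | one =>
    rw [inv_one, map_one]
    exact ⟨fun v hv => hv, fun v hv => hv⟩
  | mul a b _ _ iha ihb =>
    rw [mul_inv_rev, map_mul, map_mul]
    exact ⟨fun v hv => iha.1 _ (ihb.1 v hv), fun v hv => ihb.2 _ (iha.2 v hv)⟩
  | inv a _ iha =>
    rw [inv_inv]
    exact ⟨iha.2, iha.1⟩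

theorem Fx_closure_sub (k : ℕ) {y : Q} (hy : y ∈ closure X) :
    ∀ v ∈ Fx ρ X (k + 1), ρ y v - v ∈ Fx ρ X k := by
  induction hy using closure_induction with
  | mem x hx => exact fun v hv => hv x hx
  | one =>
    intro v _
    rw [map_one, Module.End.one_apply, sub_self]
    exact zero_mem _
  | mul a b ha _ iha ihb =>
    intro v hv
    have e : ρ (a * b) v - v = ρ a (ρ b v - v) + (ρ a v - v) := by
      rw [map_mul, Module.End.mul_apply, map_sub]
      abel
    rw [e]
    exact add_mem ((Fx_closure_inv k ha).1 _ (ihb v hv)) (iha v hv)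
  | inv a ha iha =>
    intro v hv
    have e : ρ a⁻¹ v - v = -(ρ a⁻¹ (ρ a v - v)) := by
      rw [map_sub, rho_inv_apply]
      abel
    rw [e]
    exact neg_mem ((Fx_closure_inv k ha).2 _ (iha v hv))

theorem Fx_closure (k : ℕ) : Fx ρ (closure X : Set Q) k = Fx ρ X k := by
  refine le_antisymm (Fx_anti Subgroup.subset_closure k) ?_
  induction k with
  | zero => exact le_rfl
  | succ k ih => exact fun v hv y hy => ih (Fx_closure_sub k hy v hv)

theorem Fx_comp (f : Q' →* Q) (Y : Set Q') (k : ℕ) : Fx (ρ.comp f) Y k = Fx ρ (f '' Y) k := by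
  induction k with
  | zero => rfl
  | succ k ih =>
    ext v
    rw [mem_Fx_succ, mem_Fx_succ]
    constructor
    · rintro h _ ⟨y, hy, rfl⟩
      rw [← ih]
      exact h y hy
    · intro h y hy
      rw [ih]
      exact h _ ⟨y, hy, rfl⟩

theorem Fx_conj {q : Q} (hq : ∀ x ∈ X, q⁻¹ * x * q ∈ X) (k : ℕ) {v : V} (hv : v ∈ Fx ρ X k) :
    ρ q v ∈ Fx ρ X k := by
  induction k generalizing v with
  | zero =>
    rw [mem_Fx_zero] at hv ⊢
    rw [hv, map_zero]
  | succ k ih =>
    intro x hx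
    have e : ρ x (ρ q v) - ρ q v = ρ q (ρ (q⁻¹ * x * q) v - v) := by
      rw [map_sub, ← Module.End.mul_apply, ← Module.End.mul_apply, ← map_mul, ← map_mul]
      congr 3
      group
    rw [e]
    exact ih (hv _ (hq x hx))

theorem Fx_normal (F : Subgroup Q) [F.Normal] (q : Q) (k : ℕ) {v : V} (hv : v ∈ Fx ρ (F : Set Q) k) :
    ρ q v ∈ Fx ρ (F : Set Q) k := by
  refine Fx_conj (fun x hx => ?_) k hv
  have := (inferInstance : F.Normal).conj_mem x hx q⁻¹
  rwa [inv_inv] at this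

theorem Fx_union (F₁ F₂ : Subgroup Q) [F₁.Normal] [F₂.Normal] (n : ℕ) :
    ∀ a b : ℕ, a + b = n → ∀ v : V, v ∈ Fx ρ (F₁ : Set Q) a → v ∈ Fx ρ (F₂ : Set Q) b →
      v ∈ Fx ρ ((F₁ : Set Q) ∪ F₂) n := by
  induction n with
  | zero =>
    intro a b hab v h1 _
    have ha : a = 0 := by omega
    subst ha
    exact h1
  | succ n ih =>
    intro a b hab v h1 h2
    cases a with
    | zero =>
      rw [mem_Fx_zero] at h1
      rw [h1]
      exact zero_mem _
    | succ a =>
      cases b with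
      | zero =>
        rw [mem_Fx_zero] at h2
        rw [h2]
        exact zero_mem _
      | succ b =>
        rintro x (hx | hx)
        · exact ih a (b + 1) (by omega) _ (h1 x hx) (sub_mem (Fx_normal F₂ x _ h2) h2)
        · exact ih (a + 1) b (by omega) _ (sub_mem (Fx_normal F₁ x _ h1) h1) (h2 x hx)

theorem Fx_sup (F₁ F₂ : Subgroup Q) [F₁.Normal] [F₂.Normal] {a b : ℕ} {v : V}
    (h1 : v ∈ Fx ρ (F₁ : Set Q) a) (h2 : v ∈ Fx ρ (F₂ : Set Q) b) :
    v ∈ Fx ρ ((F₁ ⊔ F₂ : Subgroup Q) : Set Q) (a + b) := by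
  have h3 := Fx_union F₁ F₂ (a + b) a b rfl v h1 h2
  rw [← Fx_closure] at h3
  have e : (F₁ ⊔ F₂ : Subgroup Q) = closure ((F₁ : Set Q) ∪ F₂) := by
    rw [Subgroup.closure_union, Subgroup.closure_eq, Subgroup.closure_eq]
  rw [e]
  exact h3

/-- powers modulo a normal subgroup -/
theorem pow_mod (N : Subgroup Q) [N.Normal] {a : Q} (ha : a ∈ N) (b : Q) (n : ℕ) :
    ∃ c ∈ N, (a * b) ^ n = c * b ^ n := by
  refine ⟨(a * b) ^ n * (b ^ n)⁻¹, ?_, by group⟩
  have h1 : QuotientGroup.mk' N a = 1 := (QuotientGroup.eq_one_iff a).2 ha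
  rw [← QuotientGroup.ker_mk' N, MonoidHom.mem_ker, map_mul, map_pow, map_mul, h1, one_mul, map_inv,
    map_pow, mul_inv_cancel]

/-- the combination of finitely many normal subgroups -/
theorem comb (v : V) (S : Finset Q) (N F : Q → Subgroup Q) (m K : Q → ℕ)
    (hN : ∀ s ∈ S, (N s).Normal) (hF : ∀ s ∈ S, (F s).Normal) (hm : ∀ s ∈ S, 0 < m s)
    (hp : ∀ s ∈ S, ∀ x ∈ N s, x ^ m s ∈ F s) (hv : ∀ s ∈ S, v ∈ Fx ρ (F s : Set Q) (K s)) :
    ∃ (P R : Subgroup Q) (M k : ℕ), P.Normal ∧ R.Normal ∧ (∀ s ∈ S, N s ≤ P) ∧ 0 < M ∧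
      (∀ x ∈ P, x ^ M ∈ R) ∧ v ∈ Fx ρ (R : Set Q) k := by
  classical
  induction S using Finset.induction_on with
  | empty =>
    refine ⟨⊥, ⊥, 1, 1, inferInstance, inferInstance, by simp, one_pos, fun x hx => ?_, ?_⟩
    · rwa [pow_one]
    · intro x hx
      have : x = 1 := by simpa using hx
      rw [this, map_one, Module.End.one_apply, sub_self]
      exact zero_mem _
  | insert s S hs ih =>
    obtain ⟨P, R, M, k, hPn, hRn, hNP, hM, hPR, hvR⟩ := ih
      (fun t ht => hN t (Finset.mem_insert_of_mem ht))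
      (fun t ht => hF t (Finset.mem_insert_of_mem ht))
      (fun t ht => hm t (Finset.mem_insert_of_mem ht))
      (fun t ht => hp t (Finset.mem_insert_of_mem ht))
      (fun t ht => hv t (Finset.mem_insert_of_mem ht))
    have hs' := Finset.mem_insert_self s S
    haveI := hN s hs'
    haveI := hF s hs'
    refine ⟨N s ⊔ P, F s ⊔ R, M * m s, K s + k, inferInstance, inferInstance, ?_,
      Nat.mul_pos hM (hm s hs'), ?_, Fx_sup _ _ (hv s hs') hvR⟩
    · intro t ht
      rcases Finset.mem_insert.1 ht with rfl | ht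
      · exact le_sup_left
      · exact (hNP t ht).trans le_sup_right
    · intro x hx
      obtain ⟨a, ha, b, hb, rfl⟩ := Subgroup.mem_sup_of_normal_left.1 hx
      obtain ⟨c, hc, h1⟩ := pow_mod (N s) ha b M
      rw [pow_mul, h1]
      have h2 : c * b ^ M = (c * b ^ M * c⁻¹) * c := by group
      obtain ⟨d, hd, h3⟩ := pow_mod R (hRn.conj_mem _ (hPR b hb) c) c (m s)
      rw [h2, h3]
      exact mul_mem (mem_sup_right hd) (mem_sup_left (hp s hs' c hc))

end Pool.Agent.Helper29.VS
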