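import Pool.Agent.Helper29.VS.Fin

/-! The local version: each element lies in an invariant virtually solvable subgroup. -/

set_option autoImplicit false
set_option linter.style.haveILetI false

open Subgroup

namespace Pool.Agent.Helper29.VS

open Pool.Agent.Helper29.NU (Dg rsA rsA_pow Dg_rsA)

variable {G : Type} [Group G]

theorem QUA.restrict {σ : MulAut G} (h : QUA σ) (N : Subgroup G) (hN : ∀ x, x ∈ N ↔ σ x ∈ N) :
    QUA (rsA σ N hN) := by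
  intro K hK x hx
  have hmem : ∀ y : G, y ∈ K.map N.subtype ↔ ∃ hy : y ∈ N, (⟨y, hy⟩ : N) ∈ K := by
    intro y
    constructor
    · rintro ⟨z, hz, rfl⟩
      exact ⟨z.2, hz⟩
    · rintro ⟨hy, hz⟩
      exact ⟨⟨y, hy⟩, hz, rfl⟩
  obtain ⟨m, hm, k, hk⟩ := h (K.map N.subtype) (by
    intro y
    rw [hmem, hmem]
    constructor
    · rintro ⟨hy, hz⟩
      exact ⟨(hN y).1 hy, (hK ⟨y, hy⟩).1 hz⟩
    · rintro ⟨hy, hz⟩
      exact ⟨(hN y).2 hy, (hK ⟨y, (hN y).2 hy⟩).2 hz⟩) x ⟨x, hx, rfl⟩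
  refine ⟨m, hm, k, ?_⟩
  rw [← Dg_rsA σ N hN m k x, ← Subgroup.map_commutator] at hk
  obtain ⟨z, hz, he⟩ := hk
  have : z = (Dg (rsA σ N hN ^ m))^[k] x := N.subtype_injective he
  rwa [← this]

/-- **Tame orbits, local version.** -/
theorem tame_local {σ : MulAut G} (hσ : QUA σ) (g : G) (N : Subgroup G) (hgN : g ∈ N)
    (hN : ∀ x, x ∈ N ↔ σ x ∈ N) {S : Subgroup N} (hS : S.FiniteIndex) (hSs : Group.IsSolvable S) :
    ∃ m : ℕ, 0 < m ∧ (∃ k : ℕ, (Dg (σ ^ m))^[k] g = 1) ∧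
      ∃ V : Subgroup G, Group.IsNilpotent V ∧ ∀ n : ℕ, ((σ ^ m)^[n]) (Dg (σ ^ m) g) ∈ V := by
  obtain ⟨m, hm, ⟨k, hk⟩, V, hVn, hV⟩ := tame_of_QUA hS hSs (hσ.restrict N hN) ⟨g, hgN⟩
  refine ⟨m, hm, ⟨k, ?_⟩, V.map N.subtype, ?_, fun n => ?_⟩
  · have := Dg_rsA σ N hN m k ⟨g, hgN⟩
    rw [hk] at this
    exact this.symm
  · obtain ⟨c, hc⟩ := (Subgroup.isNilpotent_iff_lowerCentralSeries V).1 hVn
    refine (Subgroup.isNilpotent_iff_lowerCentralSeries _).2 ⟨c, ?_⟩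
    rw [← Subgroup.map_lowerCentralSeries, hc, Subgroup.map_bot]
  · refine ⟨_, hV n, ?_⟩
    have h1 : ∀ (n : ℕ) (x : N), N.subtype (((rsA σ N hN ^ m)^[n]) x) =
        ((σ ^ m)^[n]) (x : G) := by
      intro n
      induction n with
      | zero => intro x; rfl
      | succ n ih =>
        intro x
        rw [Function.iterate_succ_apply, ih, rsA_pow, Function.iterate_succ_apply]
    rw [h1]
    congr 1
    exact Dg_rsA σ N hN m 1 ⟨g, hgN⟩

end Pool.Agent.Helper29.VS
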