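import Pool.Agent.Helper29.VS.QQ
import Pool.Agent.Helper29.NU.HL

/-! Elements which act locally quasi-unipotently modulo an abelian normal subgroup. -/

set_option autoImplicit false
set_option linter.style.haveILetI false

open Subgroup
open scoped commutatorElement

namespace Pool.Agent.Helper29.VS

open Pool.Agent.Helper29.NU (En)

/-- automorphisms as operators -/
def eA (B : Type) [CommGroup B] : MulAut B →* Module.End ℤ (Additive B) where
  toFun f := (MonoidHom.toAdditive f.toMonoidHom).toIntLinearMap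
  map_one' := rfl
  map_mul' _ _ := rfl

theorem eA_apply {B : Type} [CommGroup B] (f : MulAut B) (b : B) :
    eA B f (Additive.ofMul b) = Additive.ofMul (f b) := rfl

/-- the version of `QQ` for a subgroup -/
theorem QQ' {V : Type} [AddCommGroup V] {E : Type} [Group E] (ρ : E →* Module.End ℤ V) (T : Finset E)
    {c : ℕ} (hc : (closure (T : Set E)).lowerCentralSeries c = ⊥) (hL : ∀ t ∈ T, LQ ρ t) (v : V) :
    ∃ m : ℕ, 0 < m ∧ ∃ K : ℕ, v ∈ Fx ρ {y | ∃ x ∈ closure (T : Set E), y = x ^ m} K := by
  classical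
  set S' : Finset (closure (T : Set E)) := T.attach.image fun t =>
    ⟨t.1, Subgroup.subset_closure t.2⟩ with hS'
  have hS'c : closure (S' : Set (closure (T : Set E))) = ⊤ := by
    have e : (S' : Set (closure (T : Set E))) = ((↑) : closure (T : Set E) → E) ⁻¹' T := by
      ext x
      rw [hS', Finset.coe_image, Set.mem_image, Set.mem_preimage]
      constructor
      · rintro ⟨t, -, rfl⟩
        exact t.2
      · intro hx
        exact ⟨⟨x.1, hx⟩, Finset.mem_coe.2 (Finset.mem_attach _ _), rfl⟩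
    rw [e]
    exact closure_closure_coe_preimage
  obtain ⟨m, hm, K, hK⟩ := QQ c (closure (T : Set E))
    (ρ.comp (closure (T : Set E)).subtype) (lcs_sub _ hc) S' hS'c (by
      intro s' hs'
      obtain ⟨t, -, rfl⟩ := Finset.mem_image.1 hs'
      intro w
      obtain ⟨m, hm, k, hk⟩ := hL t.1 t.2 w
      refine ⟨m, hm, k, ?_⟩
      rw [Fx_comp, Set.image_singleton]
      exact hk) v
  refine ⟨m, hm, K, ?_⟩
  rw [Fx_comp] at hK
  refine Fx_anti ?_ K hK
  rintro _ ⟨x, hx, rfl⟩
  exact ⟨⟨x, hx⟩ ^ m, ⟨⟨x, hx⟩, rfl⟩, rfl⟩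

theorem Fx_pow_anti {V : Type} [AddCommGroup V] {E : Type} [Group E] {ρ : E →* Module.End ℤ V}
    (P : Subgroup E) {m M K L : ℕ} (hm : m ∣ M) (hK : K ≤ L) {v : V}
    (hv : v ∈ Fx ρ {y | ∃ x ∈ P, y = x ^ m} K) : v ∈ Fx ρ {y | ∃ x ∈ P, y = x ^ M} L := by
  refine Fx_mono hK (Fx_anti ?_ K hv)
  rintro _ ⟨x, hx, rfl⟩
  obtain ⟨n, rfl⟩ := hm
  exact ⟨x ^ n, pow_mem hx n, by rw [← pow_mul, mul_comm]⟩

/-- uniformity for finitely many vectors -/
theorem QQ_fin {V : Type} [AddCommGroup V] {E : Type} [Group E] (ρ : E →* Module.End ℤ V)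
    (P : Subgroup E) {ι : Type} (S : Finset ι) (v : ι → V)
    (h : ∀ i ∈ S, ∃ m : ℕ, 0 < m ∧ ∃ K : ℕ, v i ∈ Fx ρ {y | ∃ x ∈ P, y = x ^ m} K) :
    ∃ m : ℕ, 0 < m ∧ ∃ K : ℕ, ∀ i ∈ S, v i ∈ Fx ρ {y | ∃ x ∈ P, y = x ^ m} K := by
  classical
  induction S using Finset.induction_on with
  | empty => exact ⟨1, one_pos, 0, by simp⟩
  | insert a S _ ih =>
    obtain ⟨m, hm, K, hK⟩ := ih fun i hi => h i (Finset.mem_insert_of_mem hi)
    obtain ⟨m', hm', K', hK'⟩ := h a (Finset.mem_insert_self _ _)
    refine ⟨m * m', Nat.mul_pos hm hm', K + K', fun i hi => ?_⟩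
    rcases Finset.mem_insert.1 hi with rfl | hi
    · exact Fx_pow_anti P (dvd_mul_left _ _) (Nat.le_add_left _ _) hK'
    · exact Fx_pow_anti P (dvd_mul_right _ _) (Nat.le_add_right _ _) (hK i hi)

/-- the terms of the lower central series are finitely generated as normal subgroups -/
theorem lcs_normal_gen {H : Type} [Group H] (S : Finset H) (hS : closure (S : Set H) = ⊤) (n : ℕ) :
    ∃ T : Finset H, (⊤ : Subgroup H).lowerCentralSeries n = normalClosure (T : Set H) := by
  classical
  induction n with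
  | zero =>
    refine ⟨S, ?_⟩
    rw [Subgroup.lowerCentralSeries_zero, eq_comm, eq_top_iff, ← hS]
    exact closure_le_normalClosure
  | succ n ih =>
    obtain ⟨T, hT⟩ := ih
    refine ⟨(T ×ˢ S).image fun p => ⁅p.1, p.2⁆, le_antisymm ?_ ?_⟩
    · set M := normalClosure (((T ×ˢ S).image fun p => ⁅p.1, p.2⁆ : Finset H) : Set H) with hM
      haveI : M.Normal := normalClosure_normal
      have hcomm : ∀ x y : H, ⁅x, y⁆ ∈ M ↔
          Commute (QuotientGroup.mk' M x) (QuotientGroup.mk' M y) := by
        intro x y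
        rw [← commutatorElement_eq_one_iff_commute, ← map_commutatorElement,
          QuotientGroup.mk'_apply, QuotientGroup.eq_one_iff]
      have h1 : ∀ t ∈ T, ∀ y : H, ⁅t, y⁆ ∈ M := by
        intro t ht y
        have h2 : closure (S : Set H) ≤
            (centralizer {QuotientGroup.mk' M t}).comap (QuotientGroup.mk' M) := by
          rw [closure_le]
          intro s hs
          rw [SetLike.mem_coe, mem_comap, mem_centralizer_singleton_iff]
          refine Eq.symm ((hcomm t s).1 (subset_normalClosure ?_)).eq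
          exact Finset.mem_coe.2 (Finset.mem_image.2 ⟨(t, s), Finset.mem_product.2 ⟨ht, hs⟩, rfl⟩)
        rw [hS] at h2
        have h3 := h2 (mem_top y)
        rw [mem_comap, mem_centralizer_singleton_iff] at h3
        exact (hcomm t y).2 h3.symm
      have h4 : normalClosure (T : Set H) ≤ (center (H ⧸ M)).comap (QuotientGroup.mk' M) := by
        refine normalClosure_le_normal fun t ht => ?_
        rw [SetLike.mem_coe, mem_comap, mem_center_iff]
        intro z
        obtain ⟨y, rfl⟩ := QuotientGroup.mk'_surjective M z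
        exact ((hcomm t y).1 (h1 t ht y)).symm.eq
      rw [Subgroup.lowerCentralSeries_succ, commutator_le]
      intro x hx y _
      rw [hT] at hx
      have h5 := h4 hx
      rw [mem_comap, mem_center_iff] at h5
      exact (hcomm x y).2 (h5 (QuotientGroup.mk' M y)).symm
    · haveI : ((⊤ : Subgroup H).lowerCentralSeries (n + 1)).Normal := inferInstance
      refine normalClosure_le_normal fun x hx => ?_
      obtain ⟨p, hp, rfl⟩ := Finset.mem_image.1 (Finset.mem_coe.1 hx)
      rw [Finset.mem_product] at hp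
      refine commutator_mem_commutator ?_ (mem_top _)
      rw [hT]
      exact subset_normalClosure hp.1

section
variable {Γ B : Type} [Group Γ] [CommGroup B] (ι : B →* Γ) (c : Γ →* MulAut B)

/-- the elements of `B` on which the powers act nilpotently -/
def LL (X : Set (MulAut B)) (k : ℕ) : Subgroup Γ where
  carrier := {x | ∃ b : B, Additive.ofMul b ∈ Fx (eA B) X k ∧ x = ι b}
  mul_mem' := by
    rintro _ _ ⟨a, ha, rfl⟩ ⟨b, hb, rfl⟩
    exact ⟨a * b, add_mem ha hb, (map_mul ι a b).symm⟩
  one_mem' := ⟨1, zero_mem _, (map_one ι).symm⟩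
  inv_mem' := by
    rintro _ ⟨a, ha, rfl⟩
    exact ⟨a⁻¹, neg_mem ha, (map_inv ι a).symm⟩

variable {ι c}

theorem c_iota (hι : Function.Injective ι) (hc : ∀ g b, ι (c g b) = g * ι b * g⁻¹) (b : B) :
    c (ι b) = 1 := by
  ext x
  apply hι
  rw [hc, ← map_inv, ← map_mul, ← map_mul, mul_comm b x, mul_assoc, mul_inv_cancel, mul_one]
  rfl

/-- **The main step.** -/
theorem main_step (hι : Function.Injective ι) (hc : ∀ g b, ι (c g b) = g * ι b * g⁻¹) (s g : Γ)
    {n : ℕ} (hn : (closure {s, g * s * g⁻¹}).lowerCentralSeries n ≤ ι.range)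
    (hL : LQ (eA B) (c s)) :
    ∃ m : ℕ, 0 < m ∧ ∃ j : ℕ, (closure {s ^ m, g * s ^ m * g⁻¹}).lowerCentralSeries j = ⊥ := by
  classical
  set H : Subgroup Γ := closure {s, g * s * g⁻¹} with hH
  have hsH : s ∈ H := Subgroup.subset_closure (Or.inl rfl)
  have hsH' : g * s * g⁻¹ ∈ H := Subgroup.subset_closure (Or.inr rfl)
  set T : Finset (MulAut B) := {c s, c (g * s * g⁻¹)} with hT
  have hQ : closure (T : Set (MulAut B)) = H.map c := by
    rw [hH, MonoidHom.map_closure, Set.image_pair, hT, Finset.coe_pair]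
  have hcl : (closure (T : Set (MulAut B))).lowerCentralSeries n = ⊥ := by
    rw [hQ, ← Subgroup.map_lowerCentralSeries, eq_bot_iff]
    rintro _ ⟨x, hx, rfl⟩
    obtain ⟨b, rfl⟩ := hn hx
    exact c_iota hι hc b
  have hLT : ∀ t ∈ T, LQ (eA B) t := by
    intro t ht
    rw [hT, Finset.mem_insert, Finset.mem_singleton] at ht
    rcases ht with rfl | rfl
    · exact hL
    · rw [map_mul, map_mul, map_inv]
      exact hL.conj _
  -- the generators of the last term
  have hSH : closure (({⟨s, hsH⟩, ⟨g * s * g⁻¹, hsH'⟩} : Finset H) : Set H) = ⊤ := by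
    have e : (({⟨s, hsH⟩, ⟨g * s * g⁻¹, hsH'⟩} : Finset H) : Set H) =
        ((↑) : H → Γ) ⁻¹' {s, g * s * g⁻¹} := by
      ext x
      simp only [Finset.coe_insert, Finset.coe_singleton, Set.mem_insert_iff, Set.mem_singleton_iff,
        Set.mem_preimage, Subtype.ext_iff]
    rw [e]
    exact closure_closure_coe_preimage
  obtain ⟨W, hW⟩ := lcs_normal_gen _ hSH n
  have hmapH : ((⊤ : Subgroup H).lowerCentralSeries n).map H.subtype = H.lowerCentralSeries n := by
    rw [Subgroup.map_lowerCentralSeries, ← MonoidHom.range_eq_map, Subgroup.range_subtype]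
  have hWr : ∀ w ∈ W, ∃ b : B, ι b = (w : Γ) := by
    intro w hw
    have h1 : w ∈ (⊤ : Subgroup H).lowerCentralSeries n := by
      rw [hW]
      exact subset_normalClosure hw
    exact hn (hmapH ▸ mem_map_of_mem H.subtype h1)
  choose! bb hbb using hWr
  obtain ⟨m, hm, K, hK⟩ := QQ_fin (eA B) (closure (T : Set (MulAut B))) W
    (fun w => Additive.ofMul (bb w)) fun w _ => QQ' (eA B) T hcl hLT _
  set X : Set (MulAut B) := {y | ∃ x ∈ closure (T : Set (MulAut B)), y = x ^ m} with hX
  have hXconj : ∀ h ∈ H, ∀ x ∈ X, (c h)⁻¹ * x * c h ∈ X := by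
    rintro h hh _ ⟨x, hx, rfl⟩
    have h1 : c h ∈ closure (T : Set (MulAut B)) := by
      rw [hQ]
      exact mem_map_of_mem c hh
    refine ⟨(c h)⁻¹ * x * c h, mul_mem (mul_mem (inv_mem h1) hx) h1, ?_⟩
    have := conj_pow (i := m) (a := (c h)⁻¹) (b := x)
    rw [inv_inv] at this
    exact this.symm
  -- the last term is contained in the level `K`
  have hHL : H.lowerCentralSeries n ≤ LL ι X K := by
    rw [← hmapH, map_le_iff_le_comap, hW]
    haveI : ((LL ι X K).comap H.subtype).Normal := by
      refine ⟨?_⟩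
      rintro x ⟨b, hb, hxb⟩ h
      refine ⟨c h b, ?_, ?_⟩
      · rw [← eA_apply]
        exact Fx_conj (hXconj h h.2) K hb
      · rw [hc, ← hxb]
        rfl
    refine normalClosure_le_normal fun w hw => ?_
    exact ⟨bb w, hK w hw, (hbb w hw).symm⟩
  -- the smaller group
  set F : Subgroup Γ := closure {s ^ m, g * s ^ m * g⁻¹} with hF
  have hconjm : g * s ^ m * g⁻¹ = (g * s * g⁻¹) ^ m := (conj_pow ..).symm
  have hFH : F ≤ H := by
    rw [hF, closure_le]
    rintro x (rfl | rfl)
    · exact pow_mem hsH m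
    · rw [SetLike.mem_coe, hconjm]
      exact pow_mem hsH' m
  have hcF : ∀ y ∈ F, c y ∈ closure X := by
    intro y hy
    have h1 : F ≤ (closure X).comap c := by
      rw [hF, closure_le]
      rintro x (rfl | rfl)
      · rw [SetLike.mem_coe, mem_comap, map_pow]
        refine Subgroup.subset_closure ⟨c s, ?_, rfl⟩
        rw [hQ]
        exact mem_map_of_mem c hsH
      · rw [SetLike.mem_coe, mem_comap, hconjm, map_pow]
        refine Subgroup.subset_closure ⟨c (g * s * g⁻¹), ?_, rfl⟩
        rw [hQ]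
        exact mem_map_of_mem c hsH'
    exact h1 hy
  have key : ∀ j k : ℕ, j + k = K → F.lowerCentralSeries (n + j) ≤ LL ι X k := by
    intro j
    induction j with
    | zero =>
      intro k hk
      have : k = K := by omega
      subst this
      exact (Subgroup.lowerCentralSeries_mono _ hFH).trans hHL
    | succ j ih =>
      intro k hk
      have h1 := ih (k + 1) (by omega)
      rw [← add_assoc, Subgroup.lowerCentralSeries_succ, commutator_le]
      intro x hx y hy
      obtain ⟨b, hb, rfl⟩ := h1 hx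
      refine ⟨b * (c y b)⁻¹, ?_, ?_⟩
      · have e : Additive.ofMul (b * (c y b)⁻¹) =
            -(eA B (c y) (Additive.ofMul b) - Additive.ofMul b) := by
          rw [eA_apply, ofMul_mul, ofMul_inv]
          abel
        rw [e]
        exact neg_mem (Fx_closure_sub k (hcF y hy) _ hb)
      · rw [map_mul, map_inv, hc, commutatorElement_def]
        group
  refine ⟨m, hm, n + K, ?_⟩
  rw [eq_bot_iff]
  intro x hx
  obtain ⟨b, hb, rfl⟩ := key K 0 (by omega) hx
  rw [mem_Fx_zero] at hb
  have : b = 1 := hb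
  rw [this, map_one]
  exact one_mem _

end

end Pool.Agent.Helper29.VS
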