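import Pool.Agent.Helper29.VS.Fx
import Pool.Agent.Helper29.NU.Grp2
import Pool.Agent.Helper29.SM.NF

/-! Nilpotent groups which are generated by locally quasi-unipotent operators. -/

set_option autoImplicit false
set_option linter.style.haveILetI false

open Subgroup
open scoped commutatorElement

namespace Pool.Agent.Helper29.VS

open Pool.Agent.Helper29.SM (NG)
open Pool.Agent.Helper29.NU (lcs_cyc last_gen)

variable {V : Type} [AddCommGroup V]

/-- locally quasi-unipotent elements -/
def LQ {Q : Type} [Group Q] (ρ : Q →* Module.End ℤ V) (s : Q) : Prop :=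
  ∀ v : V, ∃ m : ℕ, 0 < m ∧ ∃ k : ℕ, v ∈ Fx ρ {s ^ m} k

theorem Fx_conj_set {Q : Type} [Group Q] {ρ : Q →* Module.End ℤ V} (x q : Q) (k : ℕ) {v : V}
    (hv : v ∈ Fx ρ {x} k) : ρ q v ∈ Fx ρ {q * x * q⁻¹} k := by
  induction k generalizing v with
  | zero =>
    rw [mem_Fx_zero] at hv ⊢
    rw [hv, map_zero]
  | succ k ih =>
    rintro y rfl
    have e : ρ (q * x * q⁻¹) (ρ q v) - ρ q v = ρ q (ρ x v - v) := by
      rw [map_sub, ← Module.End.mul_apply, ← map_mul, ← Module.End.mul_apply, ← map_mul]
      congr 3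
      group
    rw [e]
    exact ih (hv x rfl)

theorem LQ.conj {Q : Type} [Group Q] {ρ : Q →* Module.End ℤ V} {s : Q} (h : LQ ρ s) (q : Q) :
    LQ ρ (q * s * q⁻¹) := by
  intro v
  obtain ⟨m, hm, k, hk⟩ := h (ρ q⁻¹ v)
  refine ⟨m, hm, k, ?_⟩
  have h1 := Fx_conj_set (s ^ m) q k hk
  rw [← Module.End.mul_apply, ← map_mul, mul_inv_cancel, map_one, Module.End.one_apply] at h1
  rwa [conj_pow]

theorem lcs_sub {Q : Type} [Group Q] (N : Subgroup Q) {n : ℕ} (h : N.lowerCentralSeries n = ⊥) :
    (⊤ : Subgroup N).lowerCentralSeries n = ⊥ := by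
  have h1 : ((⊤ : Subgroup N).lowerCentralSeries n).map N.subtype = N.lowerCentralSeries n := by
    rw [Subgroup.map_lowerCentralSeries, ← MonoidHom.range_eq_map, Subgroup.range_subtype]
  rw [h, Subgroup.map_eq_bot_iff_of_injective _ N.subtype_injective] at h1
  exact h1

theorem lcs_quot {Q : Type} [Group Q] (Z : Subgroup Q) [Z.Normal] {n : ℕ}
    (h : (⊤ : Subgroup Q).lowerCentralSeries n ≤ Z) :
    (⊤ : Subgroup (Q ⧸ Z)).lowerCentralSeries n = ⊥ := by
  have h1 : ((⊤ : Subgroup Q).lowerCentralSeries n).map (QuotientGroup.mk' Z) =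
      (⊤ : Subgroup (Q ⧸ Z)).lowerCentralSeries n := by
    rw [Subgroup.map_lowerCentralSeries, Subgroup.map_top_of_surjective _
      (QuotientGroup.mk'_surjective Z)]
  rw [← h1, Subgroup.map_eq_bot_iff, QuotientGroup.ker_mk']
  exact h

/-- finitely generated nilpotent groups are noetherian -/
theorem NG_nil (c : ℕ) : ∀ (Q : Type) [Group Q] [Group.FG Q],
    (⊤ : Subgroup Q).lowerCentralSeries c = ⊥ → NG Q := by
  induction c with
  | zero =>
    intro Q _ _ h
    have h1 : ∀ a : Q, a = 1 := fun a => by
      have : a ∈ (⊥ : Subgroup Q) := by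
        rw [← h]
        exact mem_top a
      exact this
    exact NG.of_comm fun a b => by rw [h1 a, h1 b]
  | succ c ih =>
    intro Q _ _ h
    cases c with
    | zero =>
      refine NG.of_comm fun a b => ?_
      have h1 : ⁅a, b⁆ ∈ (⊥ : Subgroup Q) := by
        rw [← h]
        exact commutator_mem_commutator (mem_top a) (mem_top b)
      rw [mem_bot, commutatorElement_eq_one_iff_mul_comm] at h1
      exact h1
    | succ c =>
      obtain ⟨S, hS⟩ := Group.fg_def.1 (inferInstance : Group.FG Q)
      obtain ⟨T, -, hT⟩ := last_gen S hS c h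
      set Z := (⊤ : Subgroup Q).lowerCentralSeries (c + 1) with hZ
      haveI : Z.Normal := by
        rw [hZ]
        infer_instance
      haveI : Group.FG Z := by
        rw [Group.fg_iff_subgroup_fg]
        exact ⟨T, hT.symm⟩
      have h1 : NG Z := by
        refine NG.of_comm fun a b => Subtype.ext ?_
        have h1 : ⁅(a : Q), (b : Q)⁆ ∈ (⊥ : Subgroup Q) := by
          rw [← h]
          exact commutator_mem_commutator a.2 (mem_top _)
        rw [mem_bot, commutatorElement_eq_one_iff_mul_comm] at h1
        exact h1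
      haveI : Group.FG (Q ⧸ Z) := Group.fg_of_surjective (QuotientGroup.mk'_surjective Z)
      refine NG.ext (QuotientGroup.mk' Z) (ih (Q ⧸ Z) (lcs_quot Z le_rfl)) ?_
      rw [QuotientGroup.ker_mk']
      exact h1

theorem fin_closure {Q : Type} [Group Q] (X : Set Q) (h : (closure X).FG) :
    ∃ T : Finset Q, (T : Set Q) ⊆ X ∧ closure (T : Set Q) = closure X := by
  classical
  have h1 : ∀ g ∈ closure X, ∃ T : Finset Q, (T : Set Q) ⊆ X ∧ g ∈ closure (T : Set Q) := by
    intro g hg
    induction hg using closure_induction with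
    | mem x hx =>
      exact ⟨{x}, by simpa using hx, Subgroup.subset_closure (by simp)⟩
    | one => exact ⟨∅, by simp, one_mem _⟩
    | mul a b _ _ iha ihb =>
      obtain ⟨T1, h1, h2⟩ := iha
      obtain ⟨T2, h3, h4⟩ := ihb
      refine ⟨T1 ∪ T2, by rw [Finset.coe_union]; exact Set.union_subset h1 h3, ?_⟩
      rw [Finset.coe_union]
      exact mul_mem (closure_mono Set.subset_union_left h2) (closure_mono Set.subset_union_right h4)
    | inv a _ iha =>
      obtain ⟨T1, h1, h2⟩ := iha
      exact ⟨T1, h1, inv_mem h2⟩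
  obtain ⟨G, hG⟩ := h
  have h2 : ∀ g : Q, ∃ T : Finset Q, (T : Set Q) ⊆ X ∧ (g ∈ G → g ∈ closure (T : Set Q)) := by
    intro g
    by_cases hg : g ∈ G
    · obtain ⟨T, h3, h4⟩ := h1 g (by rw [← hG]; exact Subgroup.subset_closure hg)
      exact ⟨T, h3, fun _ => h4⟩
    · exact ⟨∅, by simp, fun h => absurd h hg⟩
  choose T hT hT' using h2
  refine ⟨G.biUnion T, ?_, le_antisymm ?_ ?_⟩
  · rw [Finset.coe_biUnion]
    exact Set.iUnion₂_subset fun g _ => hT g
  · refine closure_mono ?_
    rw [Finset.coe_biUnion]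
    exact Set.iUnion₂_subset fun g _ => hT g
  · rw [← hG, closure_le]
    intro g hg
    refine closure_mono ?_ (hT' g hg)
    rw [Finset.coe_biUnion]
    exact Set.subset_biUnion_of_mem (u := fun g => (T g : Set Q)) hg

theorem closure_normal {Q : Type} [Group Q] (X : Set Q) (h : ∀ g : Q, ∀ x ∈ X, g * x * g⁻¹ ∈ X) :
    (closure X).Normal := by
  refine ⟨fun n hn g => ?_⟩
  induction hn using closure_induction with
  | mem x hx => exact Subgroup.subset_closure (h g x hx)
  | one =>
    rw [mul_one, mul_inv_cancel]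
    exact one_mem _
  | mul a b _ _ iha ihb =>
    have e : g * (a * b) * g⁻¹ = (g * a * g⁻¹) * (g * b * g⁻¹) := by group
    rw [e]
    exact mul_mem iha ihb
  | inv a _ iha =>
    have e : g * a⁻¹ * g⁻¹ = (g * a * g⁻¹)⁻¹ := by group
    rw [e]
    exact inv_mem iha

/-- the conclusion: a fixed power of all group elements acts nilpotently on the vector -/
def PN {Q : Type} [Group Q] (ρ : Q →* Module.End ℤ V) (v : V) : Prop :=
  ∃ m : ℕ, 0 < m ∧ ∃ K : ℕ, v ∈ Fx ρ {y | ∃ x : Q, y = x ^ m} K

theorem PN_of_comb {Q : Type} [Group Q] {ρ : Q →* Module.End ℤ V} {v : V} {S : Finset Q}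
    (hS : closure (S : Set Q) = ⊤) (N F : Q → Subgroup Q) (m K : Q → ℕ)
    (hN : ∀ s ∈ S, (N s).Normal) (hF : ∀ s ∈ S, (F s).Normal) (hm : ∀ s ∈ S, 0 < m s)
    (hs : ∀ s ∈ S, s ∈ N s)
    (hp : ∀ s ∈ S, ∀ x ∈ N s, x ^ m s ∈ F s) (hv : ∀ s ∈ S, v ∈ Fx ρ (F s : Set Q) (K s)) :
    PN ρ v := by
  obtain ⟨P, R, M, k, -, -, hNP, hM, hPR, hvR⟩ := comb v S N F m K hN hF hm hp hv
  refine ⟨M, hM, k, Fx_anti ?_ k hvR⟩
  rintro _ ⟨x, rfl⟩
  refine hPR x ?_
  have : closure (S : Set Q) ≤ P := by
    rw [closure_le]
    exact fun s hs' => hNP s hs' (hs s hs')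
  rw [hS] at this
  exact this (mem_top x)

/-- **Nilpotent groups generated by locally quasi-unipotent operators.** -/
theorem QQ (c : ℕ) : ∀ (Q : Type) [Group Q] (ρ : Q →* Module.End ℤ V),
    (⊤ : Subgroup Q).lowerCentralSeries c = ⊥ → ∀ S : Finset Q, closure (S : Set Q) = ⊤ →
    (∀ s ∈ S, LQ ρ s) → ∀ v : V, PN ρ v := by
  classical
  induction c with
  | zero =>
    intro Q _ ρ h S _ _ v
    refine ⟨1, one_pos, 1, ?_⟩
    rintro y ⟨x, rfl⟩
    have h1 : x ^ 1 ∈ (⊥ : Subgroup Q) := by
      rw [← h]
      exact mem_top _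
    rw [mem_bot] at h1
    rw [h1, map_one, Module.End.one_apply, sub_self]
    exact zero_mem _
  | succ c ih =>
    intro Q _ ρ h S hS hL v
    cases c with
    | zero =>
      have hcomm : ∀ a b : Q, a * b = b * a := by
        intro a b
        have h1 : ⁅a, b⁆ ∈ (⊥ : Subgroup Q) := by
          rw [← h]
          exact commutator_mem_commutator (mem_top a) (mem_top b)
        rw [mem_bot, commutatorElement_eq_one_iff_mul_comm] at h1
        exact h1
      have hnorm : ∀ N : Subgroup Q, N.Normal := fun N => ⟨fun n hn g => by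
        rw [hcomm g n, mul_assoc, mul_inv_cancel, mul_one]
        exact hn⟩
      have h2 : ∀ s : Q, ∃ m k : ℕ, s ∈ S → 0 < m ∧ v ∈ Fx ρ {s ^ m} k := by
        intro s
        by_cases hs : s ∈ S
        · obtain ⟨m, hm, k, hk⟩ := hL s hs v
          exact ⟨m, k, fun _ => ⟨hm, hk⟩⟩
        · exact ⟨0, 0, fun h => absurd h hs⟩
      choose m K hmK using h2
      refine PN_of_comb hS (fun s => closure {s}) (fun s => closure {s ^ m s}) m K
        (fun s _ => hnorm _) (fun s _ => hnorm _) (fun s hs => (hmK s hs).1)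
        (fun s _ => Subgroup.subset_closure (Set.mem_singleton _)) (fun s _ x hx => ?_) (fun s hs => ?_)
      · obtain ⟨n, rfl⟩ := mem_closure_singleton.1 hx
        have e : (s ^ n) ^ m s = (s ^ m s) ^ n := by
          rw [← zpow_natCast, ← zpow_natCast, ← zpow_mul, ← zpow_mul, mul_comm]
        rw [e]
        exact (closure {s ^ m s}).zpow_mem (Subgroup.subset_closure (Set.mem_singleton _)) n
      · rw [Fx_closure]
        exact (hmK s hs).2
    | succ c =>
      haveI : Group.FG Q := Group.fg_def.2 ⟨S, hS⟩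
      have hNG := NG_nil _ Q h
      have h2 : ∀ s : Q, ∃ m k : ℕ, s ∈ S → 0 < m ∧
          v ∈ Fx ρ ((closure {y | ∃ x ∈ normalClosure {s}, y = x ^ m} : Subgroup Q) : Set Q) k := by
        intro s
        by_cases hs : s ∈ S
        · obtain ⟨T, hT, hTc⟩ := fin_closure (Group.conjugatesOfSet {s}) (hNG _)
          have hTn : closure (T : Set Q) = normalClosure {s} := hTc
          set S' : Finset (closure (T : Set Q)) := T.attach.image fun t =>
            ⟨t.1, Subgroup.subset_closure t.2⟩ with hS'
          have hS'c : closure (S' : Set (closure (T : Set Q))) = ⊤ := by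
            have e : (S' : Set (closure (T : Set Q))) = ((↑) : closure (T : Set Q) → Q) ⁻¹' T := by
              ext x
              rw [hS', Finset.coe_image, Set.mem_image, Set.mem_preimage]
              constructor
              · rintro ⟨t, -, rfl⟩
                exact t.2
              · intro hx
                exact ⟨⟨x.1, hx⟩, Finset.mem_coe.2 (Finset.mem_attach _ _), rfl⟩
            rw [e]
            exact closure_closure_coe_preimage
          have hclass : (⊤ : Subgroup (closure (T : Set Q))).lowerCentralSeries (c + 1) = ⊥ := by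
            refine lcs_sub _ ?_
            rw [eq_bot_iff, ← h]
            refine le_trans (Subgroup.lowerCentralSeries_mono _ ?_) (lcs_cyc s c)
            rw [hTn]
            haveI h5 : ((⊤ : Subgroup Q).lowerCentralSeries 1).Normal := inferInstance
            haveI h6 : (closure {s} ⊔ (⊤ : Subgroup Q).lowerCentralSeries 1).Normal := by
              refine ⟨fun n hn g => ?_⟩
              have e : g * n * g⁻¹ = ⁅g, n⁆ * n := by
                rw [commutatorElement_def]
                group
              rw [e]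
              exact mul_mem (mem_sup_right (commutator_mem_commutator (mem_top _) (mem_top _))) hn
            exact normalClosure_le_normal fun x hx => mem_sup_left (Subgroup.subset_closure hx)
          obtain ⟨m, hm, K, hK⟩ := ih (closure (T : Set Q))
            (ρ.comp (closure (T : Set Q)).subtype) hclass S' hS'c (by
              intro s' hs'
              obtain ⟨t, -, rfl⟩ := Finset.mem_image.1 hs'
              have ht := hT t.2
              rw [Group.mem_conjugatesOfSet_iff] at ht
              obtain ⟨a, ha, hconj⟩ := ht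
              obtain ⟨q, hq⟩ := isConj_iff.1 hconj
              rw [Set.mem_singleton_iff] at ha
              have h7 : LQ ρ (t : Q) := by
                rw [← hq, ha]
                exact (hL s hs).conj q
              intro w
              obtain ⟨m, hm, k, hk⟩ := h7 w
              refine ⟨m, hm, k, ?_⟩
              rw [Fx_comp, Set.image_singleton]
              exact hk) v
          refine ⟨m, K, fun _ => ⟨hm, ?_⟩⟩
          rw [Fx_closure]
          rw [Fx_comp] at hK
          refine Fx_anti ?_ K hK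
          rintro _ ⟨x, hx, rfl⟩
          rw [← hTn] at hx
          exact ⟨⟨x, hx⟩ ^ m, ⟨⟨x, hx⟩, rfl⟩, rfl⟩
        · exact ⟨0, 0, fun h => absurd h hs⟩
      choose m K hmK using h2
      refine PN_of_comb hS (fun s => normalClosure {s})
        (fun s => closure {y | ∃ x ∈ normalClosure {s}, y = x ^ m s}) m K
        (fun s _ => normalClosure_normal) (fun s _ => closure_normal _ ?_) (fun s hs => (hmK s hs).1)
        (fun s _ => subset_normalClosure (Set.mem_singleton _)) (fun s _ x hx => Subgroup.subset_closure ⟨x, hx, rfl⟩)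
        (fun s hs => (hmK s hs).2)
      rintro g _ ⟨x, hx, rfl⟩
      exact ⟨g * x * g⁻¹, normalClosure_normal.conj_mem x hx g, by rw [conj_pow]⟩

end Pool.Agent.Helper29.VS
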