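import Pool.Agent.Helper29.VS.Main
import Pool.Agent.Helper29.NU.VPC

/-! Automorphisms of virtually solvable groups which act quasi-unipotently on the derived factors. -/

set_option autoImplicit false
set_option linter.style.haveILetI false

open Subgroup
open scoped commutatorElement

namespace Pool.Agent.Helper29.VS

open Pool.Agent.Helper29.NU (En Dg SP aa pw En_inl aa_conj RR RR_normal RR_map RR_bot mem_iff_of_map
  solv_sup)

theorem LQ.pow {V : Type} [AddCommGroup V] {E : Type} [Group E] {ρ : E →* Module.End ℤ V} {s : E}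
    (h : LQ ρ s) (n : ℕ) : LQ ρ (s ^ n) := by
  intro v
  obtain ⟨m, hm, k, hk⟩ := h v
  refine ⟨m, hm, k, ?_⟩
  rw [← Fx_closure] at hk
  refine Fx_anti ?_ k hk
  rintro _ rfl
  have e : (s ^ n) ^ m = (s ^ m) ^ n := by rw [← pow_mul, ← pow_mul, mul_comm]
  rw [e]
  exact pow_mem (Subgroup.subset_closure (Set.mem_singleton _)) n

theorem fx_en {Γ B : Type} [Group Γ] [CommGroup B] {ι : B →* Γ} {c : Γ →* MulAut B}
    (hι : Function.Injective ι) (hc : ∀ g b, ι (c g b) = g * ι b * g⁻¹) (x : Γ) (k : ℕ) (b : B) :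
    Additive.ofMul b ∈ Fx (eA B) {c x} k ↔ (En x)^[k] (ι b) = 1 := by
  induction k generalizing b with
  | zero =>
    rw [mem_Fx_zero]
    constructor
    · intro h
      have : b = 1 := h
      rw [this, map_one]
      rfl
    · intro h
      have : b = 1 := hι (h.trans (map_one ι).symm)
      rw [this]
      rfl
  | succ k ih =>
    have e1 : En x (ι b) = ι (b⁻¹ * c x b) := by
      rw [map_mul, map_inv, hc, En]
      group
    rw [mem_Fx_succ, Function.iterate_succ_apply, e1, ← ih]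
    have e2 : eA B (c x) (Additive.ofMul b) - Additive.ofMul b = Additive.ofMul (b⁻¹ * c x b) := by
      rw [eA_apply, ofMul_mul, ofMul_inv]
      abel
    constructor
    · intro h
      rw [← e2]
      exact h _ rfl
    · rintro h _ rfl
      rw [e2]
      exact h

theorem En_map {Γ Γ' : Type} [Group Γ] [Group Γ'] (f : Γ →* Γ') (s x : Γ) (k : ℕ) :
    f ((En s)^[k] x) = (En (f s))^[k] (f x) := by
  induction k generalizing x with
  | zero => rfl
  | succ k ih =>
    rw [Function.iterate_succ_apply, ih, Function.iterate_succ_apply]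
    congr 1
    rw [En, En, map_mul, map_mul, map_mul, map_inv, map_inv]

theorem lcs_map {Γ Γ' : Type} [Group Γ] [Group Γ'] (f : Γ →* Γ') (s g : Γ) (n : ℕ) :
    ((closure {s, g * s * g⁻¹}).lowerCentralSeries n).map f =
      (closure {f s, f g * f s * (f g)⁻¹}).lowerCentralSeries n := by
  rw [Subgroup.map_lowerCentralSeries, MonoidHom.map_closure, Set.image_pair, map_mul, map_mul,
    map_inv]

/-- **The tower.** -/
theorem tower {Γ : Type} [Group Γ] (T : ℕ → Subgroup Γ) (hT : ∀ i, (T i).Normal)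
    (hT' : ∀ i, ⁅T i, T i⁆ ≤ T (i + 1)) (s g : Γ)
    (hs : ∀ i, ∀ x ∈ T i, ∃ m : ℕ, 0 < m ∧ ∃ k : ℕ, (En (s ^ m))^[k] x ∈ T (i + 1)) {m₀ : ℕ}
    (hm₀ : 0 < m₀) (h0 : g * s ^ m₀ * g⁻¹ * (s ^ m₀)⁻¹ ∈ T 0) (i : ℕ) :
    ∃ m : ℕ, 0 < m ∧ ∃ n : ℕ, (closure {s ^ m, g * s ^ m * g⁻¹}).lowerCentralSeries n ≤ T i := by
  induction i with
  | zero =>
    refine ⟨m₀, hm₀, 1, ?_⟩
    haveI := hT 0
    rw [← QuotientGroup.ker_mk' (T 0), ← Subgroup.map_eq_bot_iff, lcs_map]
    set π := QuotientGroup.mk' (T 0) with hπ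
    have h1 : π g * π (s ^ m₀) * (π g)⁻¹ = π (s ^ m₀) := by
      rw [← map_inv, ← map_mul, ← map_mul, ← mul_inv_eq_one, ← map_inv, ← map_mul,
        ← MonoidHom.mem_ker, hπ, QuotientGroup.ker_mk']
      exact h0
    rw [h1, Set.pair_eq_singleton, eq_bot_iff, Subgroup.lowerCentralSeries_succ,
      Subgroup.lowerCentralSeries_zero, commutator_le]
    intro a ha b hb
    obtain ⟨p, rfl⟩ := mem_closure_singleton.1 ha
    obtain ⟨q, rfl⟩ := mem_closure_singleton.1 hb
    rw [mem_bot, commutatorElement_eq_one_iff_mul_comm, ← zpow_add, ← zpow_add, add_comm]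
  | succ i ih =>
    obtain ⟨m, hm, n, hn⟩ := ih
    haveI := hT i
    haveI := hT (i + 1)
    set π := QuotientGroup.mk' (T (i + 1)) with hπ
    set A := (T i).map π with hA
    haveI hAn : A.Normal := (hT i).map π (QuotientGroup.mk'_surjective _)
    have hAcomm : ∀ a b : A, a * b = b * a := by
      rintro ⟨_, x, hx, rfl⟩ ⟨_, y, hy, rfl⟩
      refine Subtype.ext ?_
      show π x * π y = π y * π x
      rw [← commutatorElement_eq_one_iff_mul_comm, ← map_commutatorElement, ← MonoidHom.mem_ker, hπ,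
        QuotientGroup.ker_mk']
      exact hT' i (commutator_mem_commutator hx hy)
    letI : CommGroup A := { (inferInstance : Group A) with mul_comm := hAcomm }
    have hι : Function.Injective (A.subtype : A →* _) := A.subtype_injective
    have hc : ∀ (g : Γ ⧸ T (i + 1)) (b : A),
        A.subtype ((MulAut.conjNormal : _ →* MulAut A) g b) = g * A.subtype b * g⁻¹ := fun g b =>
      MulAut.conjNormal_apply g b
    have hL : LQ (eA A) ((MulAut.conjNormal : _ →* MulAut A) (π s)) := by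
      intro v
      obtain ⟨⟨_, x, hx, rfl⟩, rfl⟩ := Additive.ofMul.surjective v
      obtain ⟨m1, hm1, k1, h1⟩ := hs i x hx
      refine ⟨m1, hm1, k1, ?_⟩
      rw [← map_pow, fx_en hι hc]
      show (En (π s ^ m1))^[k1] (π x) = 1
      rw [← map_pow, ← En_map, ← MonoidHom.mem_ker, hπ, QuotientGroup.ker_mk']
      exact h1
    obtain ⟨m', hm', j, hj⟩ := main_step (ι := A.subtype)
      (c := (MulAut.conjNormal : _ →* MulAut A)) hι hc (π (s ^ m)) (π g) (n := n) (by
        rw [← lcs_map, Subgroup.range_subtype, hA]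
        exact Subgroup.map_mono hn) (by
        rw [map_pow, map_pow]
        exact hL.pow m)
    refine ⟨m * m', Nat.mul_pos hm hm', j, ?_⟩
    rw [← QuotientGroup.ker_mk' (T (i + 1)), ← Subgroup.map_eq_bot_iff, lcs_map, ← hj, pow_mul,
      map_pow π (s ^ m) m']

section Fin

variable {G : Type} [Group G]

theorem aa_pow_conj (τ : MulAut G) (m : ℕ) (g : G) :
    aa τ ^ m * SemidirectProduct.inl g * (aa τ ^ m)⁻¹ = SemidirectProduct.inl ((τ ^ m) g) := by
  induction m generalizing g with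
  | zero => simp
  | succ m ih =>
    have e : aa τ ^ (m + 1) * SemidirectProduct.inl g * (aa τ ^ (m + 1))⁻¹ =
        aa τ ^ m * (aa τ * SemidirectProduct.inl g * (aa τ)⁻¹) * (aa τ ^ m)⁻¹ := by
      rw [pow_succ]
      group
    rw [e, aa_conj, ih, pow_succ]
    rfl

theorem En_pow_inl (τ : MulAut G) (m : ℕ) (g : G) :
    En (aa τ ^ m) (SemidirectProduct.inl g) = SemidirectProduct.inl (Dg (τ ^ m) g) := by
  rw [En, Dg, map_mul, map_inv, ← aa_pow_conj]
  group

theorem En_pow_iter (τ : MulAut G) (m k : ℕ) (g : G) :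
    (En (aa τ ^ m))^[k] (SemidirectProduct.inl g) = SemidirectProduct.inl ((Dg (τ ^ m))^[k] g) := by
  induction k generalizing g with
  | zero => rfl
  | succ k ih => rw [Function.iterate_succ_apply, En_pow_inl, ih, Function.iterate_succ_apply]

theorem map_inl_normal (τ : MulAut G) (N : Subgroup G) [hN : N.Normal] (hτ : N.map τ.toMonoidHom = N) :
    (N.map (SemidirectProduct.inl : G →* SP τ)).Normal := by
  have h1 : ∀ n : Multiplicative ℤ, ∀ x ∈ N, pw τ n x ∈ N := by
    have h2 : ∀ x, x ∈ N ↔ τ x ∈ N := mem_iff_of_map hτ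
    let P : Subgroup (MulAut G) :=
      { carrier := {a | ∀ x, x ∈ N ↔ a x ∈ N}
        one_mem' := fun _ => Iff.rfl
        mul_mem' := fun {a b} ha hb x => (hb x).trans (ha (b x))
        inv_mem' := fun {a} ha x => by
          rw [ha (a⁻¹ x), MulAut.apply_inv_self] }
    intro n x hx
    have h3 : pw τ n ∈ P := by
      rw [pw, zpowersHom_apply]
      exact zpow_mem (show τ ∈ P from h2) _
    exact (h3 x).1 hx
  refine ⟨?_⟩
  rintro _ ⟨x, hx, rfl⟩ ⟨h, n⟩
  rw [SemidirectProduct.mk_eq_inl_mul_inr]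
  refine ⟨h * pw τ n x * h⁻¹, hN.conj_mem _ (h1 n x hx) h, ?_⟩
  simp only [map_mul, map_inv, SemidirectProduct.inl_aut]
  group

/-- **Tame orbits.** -/
theorem tame (τ : MulAut G) (R : Subgroup G) [hRn : R.Normal] (hR : R.map τ.toMonoidHom = R)
    (hRs : Group.IsSolvable R)
    (hq : ∀ i, ∀ x ∈ RR R i, ∃ m : ℕ, 0 < m ∧ ∃ k : ℕ, (Dg (τ ^ m))^[k] x ∈ RR R (i + 1))
    (g : G) {m₀ : ℕ} (hm₀ : 0 < m₀) (hg : g⁻¹ * (τ ^ m₀) g ∈ R) :
    ∃ m : ℕ, 0 < m ∧ (∃ k : ℕ, (Dg (τ ^ m))^[k] g = 1) ∧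
      ∃ V : Subgroup G, Group.IsNilpotent V ∧ ∀ n : ℕ, ((τ ^ m)^[n]) (Dg (τ ^ m) g) ∈ V := by
  obtain ⟨d, hd⟩ := RR_bot hRs
  set inl : G →* SP τ := SemidirectProduct.inl with hinl
  obtain ⟨m, hm, n, hn⟩ := tower (fun i => (RR R i).map inl)
    (fun i => by
      haveI := RR_normal R i
      exact map_inl_normal τ _ (RR_map hR i))
    (fun i => by
      rw [← Subgroup.map_commutator]
      exact le_rfl) (aa τ) (inl g)⁻¹
    (by
      rintro i _ ⟨x, hx, rfl⟩
      obtain ⟨m, hm, k, hk⟩ := hq i x hx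
      refine ⟨m, hm, k, ?_⟩
      rw [hinl, En_pow_iter]
      exact ⟨_, hk, rfl⟩) hm₀ (by
      refine ⟨g⁻¹ * (τ ^ m₀) g, hg, ?_⟩
      rw [map_mul, map_inv, hinl, ← aa_pow_conj]
      group) d
  rw [hd, Subgroup.map_bot, inv_inv] at hn
  set S := aa τ ^ m with hS
  set U := closure {S, (inl g)⁻¹ * S * inl g} with hU
  have hSU : S ∈ U := Subgroup.subset_closure (Or.inl rfl)
  have hEg : En S (inl g) ∈ U := by
    rw [En]
    exact mul_mem (Subgroup.subset_closure (Or.inr rfl)) (inv_mem hSU)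
  refine ⟨m, hm, ⟨n + 1, ?_⟩, U.comap inl, ?_, ?_⟩
  · have h1 : ∀ j, (En S)^[j] (En S (inl g)) ∈ U.lowerCentralSeries j := by
      intro j
      induction j with
      | zero => exact hEg
      | succ j ih =>
        rw [Function.iterate_succ_apply', Subgroup.lowerCentralSeries_succ]
        have e : ∀ y : SP τ, En S y = ⁅y⁻¹, S⁆ := by
          intro y
          rw [En, commutatorElement_def, inv_inv]
        rw [e]
        exact commutator_mem_commutator (inv_mem ih) hSU
    have h2 : (En S)^[n + 1] (inl g) = 1 := by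
      rw [Function.iterate_succ_apply]
      exact hn (h1 n)
    rw [hS, hinl, En_pow_iter] at h2
    exact SemidirectProduct.inl_injective (h2.trans (map_one _).symm)
  · refine (Subgroup.isNilpotent_iff_lowerCentralSeries _).2 ⟨n, ?_⟩
    have h2 : ((U.comap inl).lowerCentralSeries n).map inl = ⊥ := by
      rw [Subgroup.map_lowerCentralSeries, eq_bot_iff]
      exact (Subgroup.lowerCentralSeries_mono n (Subgroup.map_comap_le _ _)).trans hn
    rw [Subgroup.map_eq_bot_iff] at h2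
    rw [eq_bot_iff]
    intro x hx
    have h3 := h2 hx
    rw [MonoidHom.mem_ker] at h3
    rw [mem_bot]
    exact SemidirectProduct.inl_injective (h3.trans (map_one _).symm)
  · intro j
    induction j with
    | zero =>
      show inl (Dg (τ ^ m) g) ∈ U
      rw [hinl, ← En_pow_inl]
      exact hEg
    | succ j ih =>
      rw [Function.iterate_succ_apply']
      show inl ((τ ^ m) (((τ ^ m)^[j]) (Dg (τ ^ m) g))) ∈ U
      rw [hinl, ← aa_pow_conj]
      exact mul_mem (mul_mem hSU ih) (inv_mem hSU)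

/-- the solvable radical of a virtually solvable group -/
theorem exists_rad' {S : Subgroup G} (hS : S.FiniteIndex) (hSs : Group.IsSolvable S) :
    ∃ R : Subgroup G, R.Normal ∧ Group.IsSolvable R ∧ R.FiniteIndex ∧
      ∀ τ : MulAut G, R.map τ.toMonoidHom = R := by
  classical
  have hC : S.normalCore.FiniteIndex := inferInstance
  have hCs : Group.IsSolvable S.normalCore :=
    Group.isSolvable_of_isSolvable_injective (Subgroup.inclusion_injective S.normalCore_le)
  -- a normal solvable subgroup of minimal index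
  have hex : ∃ n : ℕ, ∃ R : Subgroup G, R.Normal ∧ Group.IsSolvable R ∧ R.FiniteIndex ∧
      R.index = n := ⟨_, S.normalCore, inferInstance, hCs, hC, rfl⟩
  obtain ⟨R, hRn, hRs, hRf, hRi⟩ := Nat.find_spec hex
  have hmax : ∀ K : Subgroup G, K.Normal → Group.IsSolvable K → K ≤ R := by
    intro K hK hKs
    have h1 : Group.IsSolvable (R ⊔ K : Subgroup G) := solv_sup R K hRs hKs
    have h2 : (R ⊔ K).FiniteIndex := Subgroup.finiteIndex_of_le le_sup_left
    have h3 := Nat.find_min' hex ⟨R ⊔ K, inferInstance, h1, h2, rfl⟩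
    rw [← hRi] at h3
    have h4 : (R ⊔ K) ≤ R := by
      by_contra hlt
      have h5 : R < R ⊔ K := lt_of_le_of_ne le_sup_left fun h => hlt h.symm.le
      exact absurd (Subgroup.index_strictAnti h5) (not_lt.2 h3)
    exact le_sup_right.trans h4
  have hRle : ∀ τ : MulAut G, R.map τ.toMonoidHom ≤ R := by
    intro τ
    refine hmax _ (hRn.map _ τ.surjective) ?_
    exact Group.isSolvable_of_surjective (τ.toMonoidHom.subgroupMap_surjective R)
  refine ⟨R, hRn, hRs, hRf, fun τ => le_antisymm (hRle τ) ?_⟩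
  intro x hx
  exact ⟨τ⁻¹ x, hRle τ⁻¹ ⟨x, hx, rfl⟩, MulAut.apply_inv_self _ τ x⟩

theorem exists_m0 (τ : MulAut G) (R : Subgroup G) [R.Normal] [R.FiniteIndex]
    (hR : R.map τ.toMonoidHom = R) (g : G) : ∃ m₀ : ℕ, 0 < m₀ ∧ g⁻¹ * (τ ^ m₀) g ∈ R := by
  let e : Equiv.Perm (G ⧸ R) := (QuotientGroup.congr R R τ hR).toEquiv
  have he : ∀ (n : ℕ) (x : G), (e ^ n) (QuotientGroup.mk x) = QuotientGroup.mk ((τ ^ n) x) := by
    intro n
    induction n with
    | zero => intro x; rfl
    | succ n ih =>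
      intro x
      rw [pow_succ, Equiv.Perm.mul_apply, pow_succ, MulAut.mul_apply, ← ih]
      rfl
  haveI : Finite (G ⧸ R) := inferInstance
  refine ⟨orderOf e, orderOf_pos e, ?_⟩
  have h1 := he (orderOf e) g
  rw [pow_orderOf_eq_one, Equiv.Perm.one_apply] at h1
  exact QuotientGroup.eq.1 h1

/-- the condition on the automorphism: quasi-unipotence on the abelianizations of the invariant
subgroups -/
def QUA (τ : MulAut G) : Prop :=
  ∀ N : Subgroup G, (∀ x, x ∈ N ↔ τ x ∈ N) → ∀ x ∈ N, ∃ m : ℕ, 0 < m ∧ ∃ k : ℕ,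
    (Dg (τ ^ m))^[k] x ∈ ⁅N, N⁆

theorem tame_of_QUA {S : Subgroup G} (hS : S.FiniteIndex) (hSs : Group.IsSolvable S) {τ : MulAut G}
    (hτ : QUA τ) (g : G) :
    ∃ m : ℕ, 0 < m ∧ (∃ k : ℕ, (Dg (τ ^ m))^[k] g = 1) ∧
      ∃ V : Subgroup G, Group.IsNilpotent V ∧ ∀ n : ℕ, ((τ ^ m)^[n]) (Dg (τ ^ m) g) ∈ V := by
  obtain ⟨R, hRn, hRs, hRf, hR⟩ := exists_rad' hS hSs
  obtain ⟨m₀, hm₀, hg⟩ := exists_m0 τ R (hR τ) g
  exact tame τ R (hR τ) hRs (fun i => hτ (RR R i) (mem_iff_of_map (RR_map (hR τ) i))) g hm₀ hg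

end Fin

end Pool.Agent.Helper29.VS
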