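import Pool.Agent.Helper29.VS.Rad

/-! Traces and sums of contractions with signs. -/

set_option autoImplicit false
set_option linter.style.haveILetI false

open Finset

namespace Pool.Agent.Helper29.VS

/-- the operators on the Hilbert space of dimension `k` -/
abbrev Mk (k : ℕ) : Type := EuclideanSpace ℂ (Fin k) →L[ℂ] EuclideanSpace ℂ (Fin k)

variable {k : ℕ}

/-- the basis -/
noncomputable def bv (k : ℕ) (i : Fin k) : EuclideanSpace ℂ (Fin k) := EuclideanSpace.single i 1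

theorem bv_norm (i : Fin k) : ‖bv k i‖ = 1 := by
  simp [bv]

/-- the real part of the trace -/
noncomputable def trc (Y : Mk k) : ℝ := ∑ i, (inner ℂ (bv k i) (Y (bv k i))).re

theorem trc_sum {I : Type} [Fintype I] (c : I → ℝ) (A : I → Mk k) :
    trc (∑ i, (c i : ℂ) • A i) = ∑ i, c i * trc (A i) := by
  unfold trc
  simp_rw [Finset.mul_sum]
  rw [Finset.sum_comm]
  refine Finset.sum_congr rfl fun j _ => ?_
  rw [_root_.sum_apply, inner_sum, Complex.re_sum]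
  refine Finset.sum_congr rfl fun i _ => ?_
  rw [smul_apply, inner_smul_right, Complex.re_ofReal_mul]

theorem trc_le (Y : Mk k) (hY : ‖Y‖ ≤ 1) : trc Y ≤ k := by
  unfold trc
  calc ∑ i, (inner ℂ (bv k i) (Y (bv k i))).re ≤ ∑ _i : Fin k, (1 : ℝ) := by
        refine Finset.sum_le_sum fun i _ => ?_
        refine (Complex.re_le_norm _).trans ((norm_inner_le_norm _ _).trans ?_)
        rw [bv_norm, one_mul]
        refine (Y.le_opNorm _).trans ?_
        rw [bv_norm, mul_one]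
        exact hY
    _ = k := by rw [Finset.sum_const, Finset.card_univ, Fintype.card_fin, nsmul_eq_mul, mul_one]

theorem sum_bv (x : EuclideanSpace ℂ (Fin k)) : x = ∑ i, x i • bv k i := by
  ext j
  rw [WithLp.ofLp_sum, Finset.sum_apply, Finset.sum_eq_single j]
  · simp [bv]
  · intro i _ hij
    simp [bv, hij.symm]
  · intro h
    exact absurd (Finset.mem_univ j) h

theorem norm_sq_le (D : Mk k) : ‖D‖ ^ 2 ≤ ∑ i, ‖D (bv k i)‖ ^ 2 := by
  have h0 : 0 ≤ ∑ i, ‖D (bv k i)‖ ^ 2 := Finset.sum_nonneg fun i _ => by positivity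
  have h1 : ‖D‖ ≤ Real.sqrt (∑ i, ‖D (bv k i)‖ ^ 2) := by
    refine ContinuousLinearMap.opNorm_le_bound _ (Real.sqrt_nonneg _) fun x => ?_
    have h2 : D x = ∑ i, x i • D (bv k i) := by
      conv_lhs => rw [sum_bv x]
      rw [map_sum]
      exact Finset.sum_congr rfl fun i _ => map_smul _ _ _
    rw [h2]
    refine (norm_sum_le _ _).trans ?_
    calc ∑ i, ‖x i • D (bv k i)‖ = ∑ i, ‖D (bv k i)‖ * ‖x i‖ := by
          refine Finset.sum_congr rfl fun i _ => ?_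
          rw [norm_smul, mul_comm]
      _ ≤ Real.sqrt (∑ i, ‖D (bv k i)‖ ^ 2) * Real.sqrt (∑ i, ‖x i‖ ^ 2) :=
          Real.sum_mul_le_sqrt_mul_sqrt _ _ _
      _ = _ := by rw [EuclideanSpace.norm_eq]
  calc ‖D‖ ^ 2 ≤ Real.sqrt (∑ i, ‖D (bv k i)‖ ^ 2) ^ 2 := pow_le_pow_left₀ (norm_nonneg _) h1 2
    _ = _ := Real.sq_sqrt h0

theorem trc_mul_self {D : Mk k} (hD : IsSelfAdjoint D) : ‖D‖ ^ 2 ≤ trc (D * D) := by
  refine (norm_sq_le D).trans (le_of_eq ?_)
  unfold trc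
  refine Finset.sum_congr rfl fun i _ => ?_
  show _ = (inner ℂ (bv k i) (D (D (bv k i)))).re
  have h1 : inner ℂ (bv k i) (D (D (bv k i))) = inner ℂ (D (bv k i)) (D (bv k i)) := by
    conv_rhs => rw [← ContinuousLinearMap.adjoint_inner_right]
    have h2 : ContinuousLinearMap.adjoint D = D := hD
    rw [h2]
  rw [h1, inner_self_eq_norm_sq_to_K]
  norm_cast

theorem norm_ssm' {H : Type} [NormedAddCommGroup H] [InnerProductSpace ℂ H] [CompleteSpace H]
    (X : H →L[ℂ] H) : ‖star X * X‖ = ‖X‖ ^ 2 := by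
  rw [sq]
  exact CStarRing.norm_star_mul_self

theorem norm_pow' {H : Type} [NormedAddCommGroup H] [InnerProductSpace ℂ H] [CompleteSpace H]
    (X : H →L[ℂ] H) (r : ℕ) : ‖(star X * X) ^ (2 ^ r)‖ = (‖X‖ ^ 2) ^ (2 ^ r) := by
  have hs : IsSelfAdjoint (star X * X) := IsSelfAdjoint.star_mul_self X
  rw [hs.norm_pow_two_pow r, norm_ssm']

theorem trc_pow (X : Mk k) (r : ℕ) :
    (‖X‖ ^ 2) ^ (2 ^ (r + 1)) ≤ trc ((star X * X) ^ (2 ^ (r + 1))) := by
  have hs : IsSelfAdjoint (star X * X) := IsSelfAdjoint.star_mul_self X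
  have h0 : 2 ^ (r + 1) = 2 ^ r + 2 ^ r := by rw [pow_succ, mul_two]
  have h2 := trc_mul_self (hs.pow (2 ^ r))
  have h3 : ‖(star X * X) ^ (2 ^ r)‖ = (‖X‖ ^ 2) ^ (2 ^ r) := norm_pow' X r
  rw [h3] at h2
  rw [h0, pow_add, pow_add]
  calc (‖X‖ ^ 2) ^ (2 ^ r) * (‖X‖ ^ 2) ^ (2 ^ r) = ((‖X‖ ^ 2) ^ (2 ^ r)) ^ 2 := (sq _).symm
    _ ≤ _ := h2

variable {m : ℕ}

/-- domination by sums of monomials in the signs -/
def Dom (F : (Fin m → Bool) → Mk k) (f : (Fin m → Bool) → ℝ) : Prop :=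
  ∃ (I : Type) (_ : Fintype I) (n : I → Fin m → ℕ) (A : I → Mk k), (∀ i, ‖A i‖ ≤ 1) ∧
    (∀ ε, F ε = ∑ i, (mono (n i) ε : ℂ) • A i) ∧ ∀ ε, f ε = ∑ i, mono (n i) ε

theorem Dom.one : Dom (k := k) (m := m) (fun _ => 1) (fun _ => 1) := by
  refine ⟨Unit, inferInstance, fun _ => 0, fun _ => 1, fun _ => ContinuousLinearMap.norm_id_le,
    fun ε => ?_, fun ε => ?_⟩
  · simp [mono_zero]
  · simp [mono_zero]

theorem Dom.mul {F F' : (Fin m → Bool) → Mk k} {f f' : (Fin m → Bool) → ℝ} (h : Dom F f)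
    (h' : Dom F' f') : Dom (fun ε => F ε * F' ε) (fun ε => f ε * f' ε) := by
  obtain ⟨I, hI, n, A, hA, hF, hf⟩ := h
  obtain ⟨I', hI', n', A', hA', hF', hf'⟩ := h'
  refine ⟨I × I', inferInstance, fun p => n p.1 + n' p.2, fun p => A p.1 * A' p.2,
    fun p => ?_, fun ε => ?_, fun ε => ?_⟩
  · refine (norm_mul_le _ _).trans ?_
    exact mul_le_one₀ (hA _) (norm_nonneg _) (hA' _)
  · show F ε * F' ε = _
    rw [hF, hF', Finset.sum_mul_sum, Fintype.sum_prod_type]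
    refine Finset.sum_congr rfl fun i _ => Finset.sum_congr rfl fun j _ => ?_
    rw [smul_mul_smul_comm, ← mono_mul]
    push_cast
    rfl
  · show f ε * f' ε = _
    rw [hf, hf', Finset.sum_mul_sum, Fintype.sum_prod_type]
    refine Finset.sum_congr rfl fun i _ => Finset.sum_congr rfl fun j _ => ?_
    rw [mono_mul]

theorem Dom.pow {F : (Fin m → Bool) → Mk k} {f : (Fin m → Bool) → ℝ} (h : Dom F f) (p : ℕ) :
    Dom (fun ε => F ε ^ p) (fun ε => f ε ^ p) := by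
  induction p with
  | zero =>
    simp only [pow_zero]
    exact Dom.one
  | succ p ih =>
    simp only [pow_succ]
    exact ih.mul h

/-- the sum with signs -/
noncomputable def XX (a : Fin m → Mk k) (ε : Fin m → Bool) : Mk k := ∑ j, (sg (ε j) : ℂ) • a j

theorem Dom.xx {a : Fin m → Mk k} (ha : ∀ j, ‖a j‖ ≤ 1) : Dom (XX a) Sg := by
  refine ⟨Fin m, inferInstance, fun i => Pi.single i 1, a, ha, fun ε => ?_, fun ε => ?_⟩
  · rw [XX]
    exact Finset.sum_congr rfl fun i _ => by rw [mono_single]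
  · rw [Sg]
    exact Finset.sum_congr rfl fun i _ => by rw [mono_single]

theorem star_XX (a : Fin m → Mk k) (ε : Fin m → Bool) :
    star (XX a ε) = XX (fun j => star (a j)) ε := by
  rw [XX, XX]
  refine (map_sum (ContinuousLinearMap.adjoint (𝕜 := ℂ) (E := EuclideanSpace ℂ (Fin k))
    (F := EuclideanSpace ℂ (Fin k))) _ _).trans ?_
  refine Finset.sum_congr rfl fun j _ => ?_
  rw [map_smulₛₗ, Complex.conj_ofReal]
  rfl

theorem norm_star' (a : Mk k) : ‖star a‖ = ‖a‖ := norm_star a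

theorem sum_trc {F : (Fin m → Bool) → Mk k} {f : (Fin m → Bool) → ℝ} (h : Dom F f) :
    ∑ ε, trc (F ε) ≤ k * ∑ ε, f ε := by
  obtain ⟨I, hI, n, A, hA, hF, hf⟩ := h
  calc ∑ ε, trc (F ε) = ∑ i, (∑ ε, mono (n i) ε) * trc (A i) := by
        simp_rw [hF, trc_sum, Finset.sum_mul]
        rw [Finset.sum_comm]
    _ ≤ ∑ i, (∑ ε, mono (n i) ε) * k :=
        Finset.sum_le_sum fun i _ => mul_le_mul_of_nonneg_left (trc_le _ (hA i))
          (sum_mono_nonneg _)
    _ = k * ∑ ε, f ε := by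
        simp_rw [hf]
        rw [← Finset.sum_mul, mul_comm, Finset.sum_comm]

/-- **Contractions whose sums with signs are large live in exponential dimension.** -/
theorem dim_large {p r : ℕ} (hp : p = 2 ^ (r + 1)) (hm : m = 512 * p) {a : Fin m → Mk k}
    (ha : ∀ j, ‖a j‖ ≤ 1) (hX : ∀ ε, (m : ℝ) / 4 ≤ ‖XX a ε‖) : (4 : ℝ) ^ p ≤ 2 * k := by
  have hp0 : 0 < p := by rw [hp]; positivity
  have hD : Dom (fun ε => (star (XX a ε) * XX a ε) ^ p) (fun ε => (Sg ε ^ 2) ^ p) := by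
    have h1 : Dom (fun ε => star (XX a ε)) Sg := by
      have := Dom.xx (a := fun j => star (a j)) (fun j => by rw [norm_star']; exact ha j)
      refine (congrArg (fun F => Dom F Sg) ?_).mp this
      funext ε
      rw [star_XX]
    have h2 := (h1.mul (Dom.xx ha)).pow p
    simp only [sq]
    exact h2
  have h1 := sum_trc hD
  have h2 := sum_moment (m := m) p hm
  have h3 : ∑ _ε : Fin m → Bool, ((128 * (p : ℝ)) ^ 2) ^ p ≤
      ∑ ε : Fin m → Bool, trc ((star (XX a ε) * XX a ε) ^ p) := by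
    refine Finset.sum_le_sum fun ε _ => ?_
    have h4 := trc_pow (XX a ε) r
    rw [← hp] at h4
    refine le_trans ?_ h4
    refine pow_le_pow_left₀ (by positivity) (pow_le_pow_left₀ (by positivity) ?_ 2) p
    refine le_trans (le_of_eq ?_) (hX ε)
    rw [hm]
    push_cast
    ring
  rw [Finset.sum_const, Finset.card_univ, Fintype.card_fun, Fintype.card_bool, Fintype.card_fin,
    nsmul_eq_mul] at h3
  have h5 : (2 : ℝ) ^ m * ((128 * (p : ℝ)) ^ 2) ^ p ≤
      k * (2 * 2 ^ m * (1024 * 4 * (p : ℝ) ^ 2) ^ p) := by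
    refine le_trans ?_ (h1.trans (mul_le_mul_of_nonneg_left h2 (by positivity)))
    refine le_trans (le_of_eq ?_) h3
    push_cast
    ring
  have h6 : ((128 * (p : ℝ)) ^ 2) ^ p = 4 ^ p * (1024 * 4 * (p : ℝ) ^ 2) ^ p := by
    rw [← mul_pow]
    congr 1
    ring
  have hp1 : (0 : ℝ) < p := by exact_mod_cast hp0
  have h7 : (0 : ℝ) < 2 ^ m * (1024 * 4 * (p : ℝ) ^ 2) ^ p := by positivity
  rw [h6] at h5
  refine le_of_mul_le_mul_right ?_ h7
  calc (4 : ℝ) ^ p * (2 ^ m * (1024 * 4 * (p : ℝ) ^ 2) ^ p) =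
      2 ^ m * (4 ^ p * (1024 * 4 * (p : ℝ) ^ 2) ^ p) := by ring
    _ ≤ k * (2 * 2 ^ m * (1024 * 4 * (p : ℝ) ^ 2) ^ p) := h5
    _ = 2 * k * (2 ^ m * (1024 * 4 * (p : ℝ) ^ 2) ^ p) := by ring

end Pool.Agent.Helper29.VS
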